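import Pool.Agent.Helper81.Dissoc.Defs

set_option autoImplicit false

namespace Pool.Agent.Helper81.Dissoc

variable {G : Type*} [AddCommGroup G]

theorem dissociated_empty : Dissociated (∅ : Finset G) := by
  intro ε _ _ b hb
  exact absurd hb (Finset.notMem_empty b)

theorem bddAbove_dims (A : Finset G) :
    BddAbove {k | ∃ B : Finset G, B ⊆ A ∧ Dissociated B ∧ B.card = k} := by
  refine ⟨A.card, ?_⟩
  rintro k ⟨B, hB, -, rfl⟩
  exact Finset.card_le_card hB

theorem le_dissDim {A B : Finset G} (hBA : B ⊆ A) (hB : Dissociated B) : B.card ≤ dissDim A :=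
  le_csSup (bddAbove_dims A) ⟨B, hBA, hB, rfl⟩

theorem dissDim_le {A : Finset G} {s : ℕ} (h : ∀ B : Finset G, B ⊆ A → Dissociated B →
    B.card ≤ s) : dissDim A ≤ s := by
  refine csSup_le ⟨0, ∅, Finset.empty_subset _, dissociated_empty, rfl⟩ ?_
  rintro k ⟨B, hBA, hB, rfl⟩
  exact h B hBA hB

theorem exists_dissDim_eq (A : Finset G) :
    ∃ B : Finset G, B ⊆ A ∧ Dissociated B ∧ B.card = dissDim A :=
  Nat.sSup_mem (s := {k | ∃ B : Finset G, B ⊆ A ∧ Dissociated B ∧ B.card = k})
    ⟨0, ∅, Finset.empty_subset _, dissociated_empty, rfl⟩ (bddAbove_dims A)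

theorem dimGm_eq {m s : ℕ} (h1 : ∀ A : Finset G, A.card = m → ∃ B : Finset G, B ⊆ A ∧
    Dissociated B ∧ s ≤ B.card) (h2 : ∃ A : Finset G, A.card = m ∧ ∀ B : Finset G, B ⊆ A →
    Dissociated B → B.card ≤ s) : dimGm G m = s := by
  obtain ⟨A, hA, hAs⟩ := h2
  apply le_antisymm
  · refine le_trans (Nat.sInf_le (m := dissDim A) ⟨A, hA, rfl⟩) (dissDim_le hAs)
  · refine le_csInf ⟨_, A, hA, rfl⟩ ?_
    rintro k ⟨A', hA', rfl⟩
    obtain ⟨B, hBA, hB, hs⟩ := h1 A' hA'
    exact le_trans hs (le_dissDim hBA hB)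

/-- Distinct subsets of a dissociated set have distinct sums. -/
theorem Dissociated.sum_injOn {B : Finset G} (hB : Dissociated B) {S T : Finset G}
    (hS : S ⊆ B) (hT : T ⊆ B) (h : ∑ b ∈ S, b = ∑ b ∈ T, b) : S = T := by
  classical
  let ε : G → ℤ := fun b => (if b ∈ S then 1 else 0) - (if b ∈ T then 1 else 0)
  have key : ∀ b ∈ B, ε b = 0 := by
    apply hB ε
    · intro b _
      simp only [ε]
      by_cases h1 : b ∈ S <;> by_cases h2 : b ∈ T <;> simp [h1, h2]
    · simp only [ε, sub_smul, Finset.sum_sub_distrib]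
      have h1 : ∀ U : Finset G, U ⊆ B → ∑ b ∈ B, (if b ∈ U then (1 : ℤ) else 0) • b =
          ∑ b ∈ U, b := by
        intro U hU
        rw [← Finset.sum_subset hU]
        · refine Finset.sum_congr rfl fun b hb => ?_
          simp [hb]
        · intro b _ hb
          simp [hb]
      rw [h1 S hS, h1 T hT, h, sub_self]
  ext b
  constructor
  · intro hb
    by_contra hb'
    have := key b (hS hb)
    simp [ε, hb, hb'] at this
  · intro hb
    by_contra hb'
    have := key b (hT hb)
    simp [ε, hb, hb'] at this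

/-- A dissociated subset of a finite group of order `N` has at most `log₂ N` elements. -/
theorem Dissociated.card_le_log [Fintype G] {B : Finset G} (hB : Dissociated B) :
    B.card ≤ Nat.log 2 (Fintype.card G) := by
  classical
  apply Nat.le_log_of_pow_le (by norm_num)
  rw [← Finset.card_powerset]
  have : (B.powerset.image fun S => ∑ b ∈ S, b).card = B.powerset.card := by
    apply Finset.card_image_of_injOn
    intro S hS T hT h
    exact hB.sum_injOn (Finset.mem_powerset.mp hS) (Finset.mem_powerset.mp hT) h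
  rw [← this]
  exact Finset.card_le_univ _

end Pool.Agent.Helper81.Dissoc
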