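import Pool.Agent.Helper81.Dissoc.Basic

set_option autoImplicit false

namespace Pool.Agent.Helper81.Dissoc

theorem two_pow_relation (s : ℕ) (e : ℕ → ℤ) (he : ∀ j < s, e j = -1 ∨ e j = 0 ∨ e j = 1)
    (h : ∑ j ∈ Finset.range s, e j * 2 ^ j = 0) : ∀ j < s, e j = 0 := by
  induction s generalizing e with
  | zero => intro j hj; omega
  | succ s ih =>
    rw [Finset.sum_range_succ'] at h
    have h2 : ∑ j ∈ Finset.range s, e (j + 1) * 2 ^ (j + 1) =
        2 * ∑ j ∈ Finset.range s, e (j + 1) * 2 ^ j := by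
      rw [Finset.mul_sum]
      refine Finset.sum_congr rfl fun j _ => ?_
      ring
    rw [h2] at h
    have h0 : e 0 = 0 := by
      have := he 0 (Nat.succ_pos s)
      simp only [pow_zero, mul_one] at h
      omega
    have h3 : ∑ j ∈ Finset.range s, e (j + 1) * 2 ^ j = 0 := by
      rw [h0] at h
      simpa using h
    have h4 := ih (fun j => e (j + 1)) (fun j hj => he (j + 1) (by omega)) h3
    intro j hj
    rcases j with _ | j
    · exact h0
    · exact h4 j (by omega)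

theorem two_pow_abs_lt (s : ℕ) (e : ℕ → ℤ) (he : ∀ j < s, e j = -1 ∨ e j = 0 ∨ e j = 1) :
    |∑ j ∈ Finset.range s, e j * 2 ^ j| < 2 ^ s := by
  induction s with
  | zero => simp
  | succ s ih =>
    rw [Finset.sum_range_succ]
    have h1 := ih fun j hj => he j (by omega)
    have h2 : |e s * 2 ^ s| ≤ 2 ^ s := by
      rw [abs_mul, abs_of_pos (by positivity : (0 : ℤ) < 2 ^ s)]
      have : |e s| ≤ 1 := by
        rcases he s (by omega) with h | h | h <;> simp [h]
      nlinarith [show (0 : ℤ) < 2 ^ s by positivity]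
    calc |∑ j ∈ Finset.range s, e j * 2 ^ j + e s * 2 ^ s|
        ≤ |∑ j ∈ Finset.range s, e j * 2 ^ j| + |e s * 2 ^ s| := abs_add_le _ _
      _ < 2 ^ s + 2 ^ s := by linarith
      _ = 2 ^ (s + 1) := by ring

variable {n : ℕ}

/-- The dilates `u, 2u, 4u, …, 2^(s-1) u` of the powers of two by a unit. -/
def dil (n s : ℕ) (u : (ZMod n)ˣ) : Finset (ZMod n) :=
  (Finset.range s).image fun j => (u : ZMod n) * 2 ^ j

theorem unit_mul_eq_zero (u : (ZMod n)ˣ) {x : ℤ} (hx : |x| < n) (h : (u : ZMod n) * (x : ZMod n) = 0) :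
    x = 0 := by
  have h1 : (x : ZMod n) = 0 := (Units.mul_right_eq_zero u).mp h
  rw [ZMod.intCast_zmod_eq_zero_iff_dvd] at h1
  exact Int.eq_zero_of_abs_lt_dvd h1 hx

theorem dil_injOn {s : ℕ} (hs : 2 ^ s ≤ n) (u : (ZMod n)ˣ) :
    Set.InjOn (fun j => (u : ZMod n) * 2 ^ j) (Finset.range s : Set ℕ) := by
  intro i hi j hj hij
  simp only [Finset.coe_range, Set.mem_Iio] at hi hj
  have h0 : (u : ZMod n) * (((2 : ℤ) ^ i - 2 ^ j : ℤ) : ZMod n) = 0 := by
    push_cast
    rw [mul_sub]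
    exact sub_eq_zero.mpr hij
  have hlt : |(2 : ℤ) ^ i - 2 ^ j| < n := by
    have h1 : (2 : ℤ) ^ i < 2 ^ s := pow_lt_pow_right₀ (by norm_num) hi
    have h2 : (2 : ℤ) ^ j < 2 ^ s := pow_lt_pow_right₀ (by norm_num) hj
    have h3 : (2 : ℤ) ^ s ≤ n := by exact_mod_cast hs
    have h4 : (0 : ℤ) < 2 ^ i := by positivity
    have h5 : (0 : ℤ) < 2 ^ j := by positivity
    rw [abs_lt]
    constructor <;> linarith
  have h1 := unit_mul_eq_zero u hlt h0
  have h2 : (2 : ℤ) ^ i = 2 ^ j := by linarith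
  exact Int.pow_right_injective (by norm_num) h2

theorem dil_card {s : ℕ} (hs : 2 ^ s ≤ n) (u : (ZMod n)ˣ) : (dil n s u).card = s := by
  rw [dil, Finset.card_image_of_injOn (dil_injOn hs u), Finset.card_range]

theorem dil_dissociated {s : ℕ} (hs : 2 ^ s ≤ n) (u : (ZMod n)ˣ) : Dissociated (dil n s u) := by
  intro ε hε hsum
  rw [dil, Finset.sum_image (dil_injOn hs u)] at hsum
  let e : ℕ → ℤ := fun j => ε ((u : ZMod n) * 2 ^ j)
  have he : ∀ j < s, e j = -1 ∨ e j = 0 ∨ e j = 1 := fun j hj =>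
    hε _ (Finset.mem_image_of_mem _ (Finset.mem_range.mpr hj))
  have h0 : (u : ZMod n) * ((∑ j ∈ Finset.range s, e j * 2 ^ j : ℤ) : ZMod n) = 0 := by
    rw [← hsum]
    push_cast
    rw [Finset.mul_sum]
    refine Finset.sum_congr rfl fun j _ => ?_
    simp only [e, zsmul_eq_mul]
    ring
  have hlt : |∑ j ∈ Finset.range s, e j * 2 ^ j| < (n : ℤ) :=
    lt_of_lt_of_le (two_pow_abs_lt s e he) (by exact_mod_cast hs)
  have h1 := unit_mul_eq_zero u hlt h0
  have h2 := two_pow_relation s e he h1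
  intro b hb
  obtain ⟨j, hj, rfl⟩ := Finset.mem_image.mp hb
  exact h2 j (Finset.mem_range.mp hj)

/-- The number of solutions of `x * 2^j = c` is at most `gcd(2^j, n)`. -/
theorem card_fiber_le [NeZero n] (k : ℕ) (c : ZMod n) (hk : 0 < k) :
    (Finset.univ.filter fun x : ZMod n => x * (k : ZMod n) = c).card ≤ Nat.gcd k n := by
  classical
  rcases Finset.eq_empty_or_nonempty
    (Finset.univ.filter fun x : ZMod n => x * (k : ZMod n) = c) with h | ⟨x₀, hx₀⟩
  · rw [h]; simp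
  · rw [Finset.mem_filter] at hx₀
    have hg : 0 < Nat.gcd k n := Nat.gcd_pos_of_pos_left _ hk
    refine le_trans ?_ (IsAddCyclic.card_nsmul_eq_zero_le (α := ZMod n) hg)
    refine Finset.card_le_card_of_injOn (fun x => x - x₀) ?_ ?_
    · intro x hx
      rw [Finset.mem_coe, Finset.mem_filter] at hx
      rw [Finset.mem_coe, Finset.mem_filter]
      refine ⟨Finset.mem_univ _, ?_⟩
      have h1 : (x - x₀) * (k : ZMod n) = 0 := by rw [sub_mul, hx.2, hx₀.2, sub_self]
      have h2 : ((Nat.gcd k n : ℕ) : ZMod n) = (k : ZMod n) * ((Nat.gcdA k n : ℤ) : ZMod n) := by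
        have := congrArg (fun z : ℤ => (z : ZMod n)) (Nat.gcd_eq_gcd_ab k n)
        simp only [Int.cast_natCast, Int.cast_add, Int.cast_mul] at this
        rw [this, ZMod.natCast_self]
        ring
      rw [nsmul_eq_mul, h2, mul_comm, ← mul_assoc, h1, zero_mul]
    · intro x _ y _ hxy
      exact sub_left_injective hxy

theorem card_bad_le [NeZero n] (C : Finset (ZMod n)) (j : ℕ) :
    (Finset.univ.filter fun u : (ZMod n)ˣ => (u : ZMod n) * 2 ^ j ∈ C).card ≤
      C.card * Nat.gcd (2 ^ j) n := by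
  classical
  have h1 : (Finset.univ.filter fun u : (ZMod n)ˣ => (u : ZMod n) * 2 ^ j ∈ C).card ≤
      (Finset.univ.filter fun x : ZMod n => x * ((2 ^ j : ℕ) : ZMod n) ∈ C).card := by
    refine Finset.card_le_card_of_injOn (fun u => (u : ZMod n)) ?_ ?_
    · intro u hu
      rw [Finset.mem_coe, Finset.mem_filter] at hu ⊢
      refine ⟨Finset.mem_univ _, ?_⟩
      push_cast
      exact hu.2
    · intro u _ v _ huv
      exact Units.ext huv
  refine le_trans h1 ?_
  have h2 : (Finset.univ.filter fun x : ZMod n => x * ((2 ^ j : ℕ) : ZMod n) ∈ C) =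
      C.biUnion fun c => Finset.univ.filter fun x : ZMod n => x * ((2 ^ j : ℕ) : ZMod n) = c := by
    ext x
    simp
  rw [h2]
  refine le_trans Finset.card_biUnion_le ?_
  refine le_trans (Finset.sum_le_card_nsmul _ _ (Nat.gcd (2 ^ j) n) fun c _ =>
    card_fiber_le (2 ^ j) c (by positivity)) ?_
  rw [smul_eq_mul]

theorem exists_dil_subset [NeZero n] {A : Finset (ZMod n)} {s : ℕ}
    (h : (n - A.card) * ∑ j ∈ Finset.range s, Nat.gcd (2 ^ j) n < Nat.totient n) :
    ∃ u : (ZMod n)ˣ, dil n s u ⊆ A := by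
  classical
  by_contra hcon
  push Not at hcon
  have hcover : (Finset.univ : Finset (ZMod n)ˣ) ⊆ (Finset.range s).biUnion fun j =>
      Finset.univ.filter fun u : (ZMod n)ˣ => (u : ZMod n) * 2 ^ j ∈ Aᶜ := by
    intro u _
    obtain ⟨b, hb, hbA⟩ := Finset.not_subset.mp (hcon u)
    obtain ⟨j, hj, rfl⟩ := Finset.mem_image.mp hb
    rw [Finset.mem_biUnion]
    exact ⟨j, hj, Finset.mem_filter.mpr ⟨Finset.mem_univ _, Finset.mem_compl.mpr hbA⟩⟩
  have h1 := Finset.card_le_card hcover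
  rw [Finset.card_univ, ZMod.card_units_eq_totient] at h1
  have h2 : Nat.totient n ≤ ∑ j ∈ Finset.range s, (Aᶜ).card * Nat.gcd (2 ^ j) n :=
    le_trans h1 (le_trans Finset.card_biUnion_le (Finset.sum_le_sum fun j _ => card_bad_le _ j))
  rw [← Finset.mul_sum, Finset.card_compl, ZMod.card] at h2
  omega

/-- `dim(ℤ_n, m) = ⌊log₂ n⌋` when `m` is close to `n`. -/
theorem dimGm_zmod {n m : ℕ} (hm : m ≤ n)
    (h : (n - m) * ∑ j ∈ Finset.range (Nat.log 2 n), Nat.gcd (2 ^ j) n < Nat.totient n) :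
    dimGm (ZMod n) m = Nat.log 2 n := by
  classical
  have hn : n ≠ 0 := by
    rintro rfl
    simp at h
  have : NeZero n := ⟨hn⟩
  have hpow : 2 ^ Nat.log 2 n ≤ n := Nat.pow_log_le_self 2 hn
  apply dimGm_eq
  · intro A hA
    obtain ⟨u, hu⟩ := exists_dil_subset (A := A) (s := Nat.log 2 n) (by rw [hA]; exact h)
    exact ⟨_, hu, dil_dissociated hpow u, by rw [dil_card hpow]⟩
  · obtain ⟨A, -, hA⟩ := Finset.exists_subset_card_eq (s := (Finset.univ : Finset (ZMod n)))
      (n := m) (by rw [Finset.card_univ, ZMod.card]; exact hm)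
    refine ⟨A, hA, fun B _ hB => ?_⟩
    have := hB.card_le_log
    rwa [ZMod.card] at this

end Pool.Agent.Helper81.Dissoc
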