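import Mathlib

/-!
# Dissociated sets and the minimum dissociativity dimension
-/

set_option autoImplicit false

namespace Pool.Agent.Helper81.Dissoc

variable {G : Type*} [AddCommGroup G]

/-- A finite subset `B` of an abelian group is dissociated if there is no nontrivial relation
`∑ b ∈ B, ε b • b = 0` with all coefficients `ε b` in `{-1, 0, 1}`. -/
def Dissociated (B : Finset G) : Prop :=
  ∀ ε : G → ℤ, (∀ b ∈ B, ε b = -1 ∨ ε b = 0 ∨ ε b = 1) → ∑ b ∈ B, ε b • b = 0 →
    ∀ b ∈ B, ε b = 0

/-- The dissociativity dimension of `A`: the largest size of a dissociated subset of `A`. -/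
noncomputable def dissDim (A : Finset G) : ℕ :=
  sSup {k | ∃ B : Finset G, B ⊆ A ∧ Dissociated B ∧ B.card = k}

variable (G) in
/-- `dim(G, m)`: the least dissociativity dimension of an `m`-element subset of `G`. -/
noncomputable def dimGm (m : ℕ) : ℕ :=
  sInf {k | ∃ A : Finset G, A.card = m ∧ dissDim A = k}

end Pool.Agent.Helper81.Dissoc
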