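import Pool.Agent.Helper81.Dissoc.Basic

set_option autoImplicit false

namespace Pool.Agent.Helper81.Dissoc

variable {p : ℕ} [Fact p.Prime] {V : Type*} [AddCommGroup V] [Module (ZMod p) V]

theorem Dissociated.of_linearIndependent {B : Finset V}
    (h : LinearIndependent (ZMod p) ((↑) : B → V)) : Dissociated B := by
  classical
  intro ε hε hsum b hb
  have h1 : ∑ i : B, ((ε i : ℤ) : ZMod p) • (i : V) = 0 := by
    rw [← hsum, ← Finset.sum_coe_sort B]
    refine Finset.sum_congr rfl fun i _ => ?_
    rw [Int.cast_smul_eq_zsmul]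
  have h2 := Fintype.linearIndependent_iff.mp h (fun i => ((ε i : ℤ) : ZMod p)) h1 ⟨b, hb⟩
  simp only at h2
  rw [ZMod.intCast_zmod_eq_zero_iff_dvd] at h2
  have hp : 2 ≤ p := (Fact.out : p.Prime).two_le
  refine Int.eq_zero_of_abs_lt_dvd h2 ?_
  rcases hε b hb with h | h | h <;> rw [h] <;> simp <;> omega

theorem Dissociated.linearIndependent (hp : p = 2 ∨ p = 3) {B : Finset V} (hB : Dissociated B) :
    LinearIndependent (ZMod p) ((↑) : B → V) := by
  classical
  have hlift : ∀ x : ZMod p, ∃ e : ℤ, (e = -1 ∨ e = 0 ∨ e = 1) ∧ (e : ZMod p) = x := by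
    rcases hp with rfl | rfl
    · intro x
      fin_cases x
      · exact ⟨0, by norm_num, rfl⟩
      · exact ⟨1, by norm_num, rfl⟩
    · intro x
      fin_cases x
      · exact ⟨0, by norm_num, rfl⟩
      · exact ⟨1, by norm_num, rfl⟩
      · exact ⟨-1, by norm_num, rfl⟩
  choose e he1 he2 using hlift
  rw [Fintype.linearIndependent_iff]
  intro g hg i
  let ε : V → ℤ := fun v => if h : v ∈ B then e (g ⟨v, h⟩) else 0
  have h1 : ∑ b ∈ B, ε b • b = 0 := by
    rw [← hg, ← Finset.sum_coe_sort B]
    refine Finset.sum_congr rfl fun i _ => ?_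
    simp only [ε, i.2, dif_pos]
    rw [← Int.cast_smul_eq_zsmul (ZMod p), he2]
  have h2 := hB ε (fun b hb => by simp only [ε, hb, dif_pos]; exact he1 _) h1 i i.2
  simp only [ε, i.2, dif_pos] at h2
  have h3 := he2 (g i)
  rw [h2] at h3
  simpa using h3.symm

/-- In an elementary abelian 2-group or 3-group `(ℤ/p)^r` the minimum dissociativity dimension of
an `m`-element subset is `⌈log_p m⌉`. -/
theorem dimGm_elementary (hp : p = 2 ∨ p = 3) (r m : ℕ) (hm : m ≤ p ^ r) :
    dimGm (Fin r → ZMod p) m = Nat.clog p m := by
  classical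
  have hp1 : 1 < p := (Fact.out : p.Prime).one_lt
  apply dimGm_eq
  · intro A hA
    obtain ⟨b, hbA, hspan, hli⟩ := exists_linearIndependent (ZMod p) (A : Set (Fin r → ZMod p))
    have hbfin : b.Finite := A.finite_toSet.subset hbA
    let B : Finset (Fin r → ZMod p) := hbfin.toFinset
    have hB : (B : Set (Fin r → ZMod p)) = b := hbfin.coe_toFinset
    have hliB : LinearIndependent (ZMod p) ((↑) : B → (Fin r → ZMod p)) := by
      have : LinearIndepOn (ZMod p) id (B : Set (Fin r → ZMod p)) := by rw [hB]; exact hli
      exact this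
    refine ⟨B, ?_, Dissociated.of_linearIndependent hliB, ?_⟩
    · intro x hx
      exact hbA ((Set.Finite.mem_toFinset hbfin).mp hx)
    · apply Nat.clog_le_of_le_pow
      have h1 : (A : Set (Fin r → ZMod p)) ⊆ Submodule.span (ZMod p) (B : Set (Fin r → ZMod p)) := by
        rw [hB, hspan]; exact Submodule.subset_span
      have h2 : Nat.card (Submodule.span (ZMod p) (B : Set (Fin r → ZMod p))) = p ^ B.card := by
        have h3 : Module.finrank (ZMod p) (Submodule.span (ZMod p) (B : Set (Fin r → ZMod p))) =
            B.card := finrank_span_finset_eq_card hliB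
        rw [Module.natCard_eq_pow_finrank (K := ZMod p), h3, Nat.card_zmod]
      rw [← h2, ← hA]
      have h4 := Set.ncard_le_ncard h1 (Set.toFinite _)
      rw [Set.ncard_coe_finset] at h4
      exact h4
  · have hc : Nat.clog p m ≤ r := Nat.clog_le_of_le_pow hm
    let W : Submodule (ZMod p) (Fin r → ZMod p) :=
      Submodule.span (ZMod p)
        ((Finset.univ.filter fun i : Fin r => (i : ℕ) < Nat.clog p m).image
          (fun i => (Pi.single i (1 : ZMod p) : Fin r → ZMod p)) : Set (Fin r → ZMod p))
    have hcardI : (Finset.univ.filter fun i : Fin r => (i : ℕ) < Nat.clog p m).card =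
        Nat.clog p m := by
      rw [Fin.card_filter_val_lt, min_eq_right hc]
    have hinj : Function.Injective fun i : Fin r => (Pi.single i (1 : ZMod p) : Fin r → ZMod p) := by
      intro i j hij
      have := congrFun hij i
      simp only [Pi.single_eq_same] at this
      by_contra hne
      rw [Pi.single_eq_of_ne hne] at this
      exact one_ne_zero this
    have hW : Module.finrank (ZMod p) W = Nat.clog p m := by
      have hli0 : LinearIndependent (ZMod p)
          fun i : Fin r => (Pi.single i (1 : ZMod p) : Fin r → ZMod p) := by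
        have := (Pi.basisFun (ZMod p) (Fin r)).linearIndependent
        convert this using 1
        ext i : 1
        simp
      have hli : LinearIndependent (ZMod p) ((↑) :
          ((Finset.univ.filter fun i : Fin r => (i : ℕ) < Nat.clog p m).image
            (fun i => (Pi.single i (1 : ZMod p) : Fin r → ZMod p)) :
              Finset (Fin r → ZMod p)) → (Fin r → ZMod p)) := by
        have h5 : LinearIndepOn (ZMod p) id
            (Set.range fun i : Fin r => (Pi.single i (1 : ZMod p) : Fin r → ZMod p)) :=
          hli0.linearIndepOn_id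
        refine (h5.mono ?_)
        intro x hx
        rw [Finset.mem_coe, Finset.mem_image] at hx
        obtain ⟨i, _, rfl⟩ := hx
        exact ⟨i, rfl⟩
      rw [finrank_span_finset_eq_card hli, Finset.card_image_of_injective _ hinj, hcardI]
    have hWcard : (W : Set (Fin r → ZMod p)).ncard = p ^ Nat.clog p m := by
      have h6 : Nat.card W = p ^ Nat.clog p m := by
        rw [Module.natCard_eq_pow_finrank (K := ZMod p), hW, Nat.card_zmod]
      exact h6
    have hle : m ≤ (W : Set (Fin r → ZMod p)).toFinset.card := by
      rw [← Set.ncard_eq_toFinset_card', hWcard]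
      exact Nat.le_pow_clog hp1 m
    obtain ⟨A, hAW, hA⟩ := Finset.exists_subset_card_eq hle
    refine ⟨A, hA, fun B hBA hB => ?_⟩
    have hliB := hB.linearIndependent hp
    have h7 : Submodule.span (ZMod p) (B : Set (Fin r → ZMod p)) ≤ W := by
      rw [Submodule.span_le]
      intro x hx
      have := hAW (hBA hx)
      simpa using this
    rw [← finrank_span_finset_eq_card hliB, ← hW]
    exact Submodule.finrank_mono h7

end Pool.Agent.Helper81.Dissoc
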