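import Pool.Agent.Helper81.Dissoc.Interval

/-!
# Five elements of `{1, …, 12}` have two subsets with the same sum
-/

set_option autoImplicit false

namespace Pool.Agent.Helper81.Dissoc

open Finset

theorem fin12 : ∀ s ⊆ Icc 1 12, s.card = 4 + 1 → SumCollision s := by
  apply collision_of; decide +kernel

end Pool.Agent.Helper81.Dissoc
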