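import Pool.Agent.Helper81.Dissoc.Basic

/-!
# Dissociated subsets of `{-k g, …, k g}`
-/

set_option autoImplicit false

namespace Pool.Agent.Helper81.Dissoc

open Finset

variable {G : Type*} [AddCommGroup G]

/-- two different subsets with the same sum -/
def SumCollision (s : Finset ℕ) : Prop :=
  ∃ S ⊆ s, ∃ S' ⊆ s, S ≠ S' ∧ ∑ n ∈ S, n = ∑ n ∈ S', n

/-- subset sums of a list -/
def sums : List ℕ → List ℕ
  | [] => [0]
  | a :: l => sums l ++ (sums l).map (a + ·)

theorem upper_aux (g : G) (k d : ℕ)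
    (hfin : ∀ s ⊆ Icc 1 k, s.card = d + 1 → SumCollision s) (B : Finset G)
    (hB : ∀ b ∈ B, ∃ j : ℤ, |j| ≤ k ∧ b = j • g) (hd : Dissociated B) : B.card ≤ d := by
  classical
  by_contra hcon
  push Not at hcon
  have hex : ∀ b : G, ∃ j : ℤ, b ∈ B → |j| ≤ k ∧ b = j • g := by
    intro b
    by_cases hb : b ∈ B
    · obtain ⟨j, hj⟩ := hB b hb
      exact ⟨j, fun _ => hj⟩
    · exact ⟨0, fun h => absurd h hb⟩
  choose j hj using hex
  -- `b ≠ 0`
  have h0 : ∀ b ∈ B, b ≠ 0 := by
    rintro b hb rfl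
    have h1 := hd (fun c => if c = 0 then 1 else 0) (fun c _ => by
      show (if c = 0 then (1 : ℤ) else 0) = -1 ∨ _
      split_ifs <;> simp) (by
        apply sum_eq_zero
        intro c _
        by_cases hc : c = 0
        · rw [hc, smul_zero]
        · rw [if_neg hc, zero_smul]) 0 hb
    simp at h1
  have h1 : ∀ b ∈ B, ∀ c ∈ B, b ≠ c → b + c ≠ 0 := by
    intro b hb c hc hbc hsum
    have h1 := hd (fun z => if z = b ∨ z = c then 1 else 0) (fun z _ => by
      show (if z = b ∨ z = c then (1 : ℤ) else 0) = -1 ∨ _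
      split_ifs <;> simp) (by
        have hsub : ({b, c} : Finset G) ⊆ B := by
          intro z hz
          rw [mem_insert, mem_singleton] at hz
          rcases hz with rfl | rfl <;> assumption
        rw [← sum_subset hsub, sum_pair hbc]
        · simp [hsum]
        · intro z _ hz
          rw [mem_insert, mem_singleton] at hz
          rw [if_neg hz, zero_smul]) b hb
    simp at h1
  have hinj : Set.InjOn (fun b => (j b).natAbs) (B : Set G) := by
    intro b hb c hc hbc
    by_contra hne
    rcases Int.natAbs_eq_natAbs_iff.1 hbc with h | h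
    · exact hne (by rw [(hj b hb).2, (hj c hc).2, h])
    · apply h1 b hb c hc hne
      rw [(hj b hb).2, (hj c hc).2, h, neg_smul, neg_add_cancel]
  obtain ⟨B', hB', hB'c⟩ := exists_subset_card_eq (show d + 1 ≤ B.card by omega)
  have hs : (B'.image fun b => (j b).natAbs) ⊆ Icc 1 k := by
    intro n hn
    obtain ⟨b, hb, rfl⟩ := mem_image.1 hn
    rw [mem_Icc]
    have hb' := hB' hb
    constructor
    · rw [Nat.one_le_iff_ne_zero, Ne, Int.natAbs_eq_zero]
      intro h
      apply h0 b hb'
      rw [(hj b hb').2, h, zero_smul]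
    · have := (hj b hb').1
      rw [Int.abs_eq_natAbs] at this
      exact_mod_cast this
  have hc : (B'.image fun b => (j b).natAbs).card = d + 1 := by
    rw [card_image_of_injOn (hinj.mono (by exact_mod_cast hB')), hB'c]
  obtain ⟨S, hS, S', hS', hne, hsum⟩ := hfin _ hs hc
  apply hne
  -- the relation
  let δ : ℕ → ℤ := fun n => (if n ∈ S then 1 else 0) - (if n ∈ S' then 1 else 0)
  have hδ : ∀ n, δ n = -1 ∨ δ n = 0 ∨ δ n = 1 := by
    intro n
    simp only [δ]
    by_cases h1 : n ∈ S <;> by_cases h2 : n ∈ S' <;> simp [h1, h2]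
  have hδsum : ∑ b ∈ B', δ (j b).natAbs * ((j b).natAbs : ℤ) = 0 := by
    have e1 : ∑ b ∈ B', δ (j b).natAbs * ((j b).natAbs : ℤ) =
        ∑ n ∈ B'.image (fun b => (j b).natAbs), δ n * (n : ℤ) := by
      rw [sum_image (hinj.mono (by exact_mod_cast hB'))]
    rw [e1]
    have e2 : ∀ U : Finset ℕ, U ⊆ B'.image (fun b => (j b).natAbs) →
        ∑ n ∈ B'.image (fun b => (j b).natAbs), (if n ∈ U then (1 : ℤ) else 0) * (n : ℤ) =
        ((∑ n ∈ U, n : ℕ) : ℤ) := by
      intro U hU
      rw [← sum_subset hU]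
      · push_cast
        refine sum_congr rfl fun n hn => ?_
        rw [if_pos hn, one_mul]
      · intro n _ hn
        rw [if_neg hn, zero_mul]
    simp only [δ, sub_mul, sum_sub_distrib]
    rw [e2 S hS, e2 S' hS', hsum, sub_self]
  have hsg : ∀ i : ℤ, Int.sign i * i = (i.natAbs : ℤ) := fun i => by
    rw [Int.sign_mul_self_eq_abs, Int.abs_eq_natAbs]
  have key := hd (fun b => if b ∈ B' then δ (j b).natAbs * Int.sign (j b) else 0) (by
      intro b hb
      show (if b ∈ B' then δ (j b).natAbs * Int.sign (j b) else 0) = -1 ∨ _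
      split_ifs with hbB
      · have h2 : Int.sign (j b) = 1 ∨ Int.sign (j b) = -1 := by
          have : j b ≠ 0 := by
            intro h
            apply h0 b hb
            rw [(hj b hb).2, h, zero_smul]
          rcases lt_or_gt_of_ne this with h | h
          · exact Or.inr (Int.sign_eq_neg_one_of_neg h)
          · exact Or.inl (Int.sign_eq_one_of_pos h)
        rcases h2 with h2 | h2 <;> rcases hδ (j b).natAbs with h3 | h3 | h3 <;> rw [h2, h3] <;> simp
      · simp) (by
      have e1 : ∀ b ∈ B, (if b ∈ B' then δ (j b).natAbs * Int.sign (j b) else 0) • b =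
          if b ∈ B' then (δ (j b).natAbs * ((j b).natAbs : ℤ)) • g else 0 := by
        intro b hb
        split_ifs with hbB
        · calc (δ (j b).natAbs * Int.sign (j b)) • b =
              (δ (j b).natAbs * Int.sign (j b)) • (j b • g) := congrArg _ (hj b hb).2
            _ = (δ (j b).natAbs * Int.sign (j b) * j b) • g := (mul_smul _ _ _).symm
            _ = _ := by rw [mul_assoc, hsg]
        · rw [zero_smul]
      rw [sum_congr rfl e1, ← sum_filter, filter_mem_eq_inter, inter_eq_right.2 hB', ← sum_smul,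
        hδsum, zero_smul])
  have key2 : ∀ n ∈ B'.image (fun b => (j b).natAbs), δ n = 0 := by
    intro n hn
    obtain ⟨b, hb, rfl⟩ := mem_image.1 hn
    have h2 := key b (hB' hb)
    rw [if_pos hb] at h2
    rcases mul_eq_zero.1 h2 with h3 | h3
    · exact h3
    · exfalso
      rw [Int.sign_eq_zero_iff_zero] at h3
      apply h0 b (hB' hb)
      rw [(hj b (hB' hb)).2, h3, zero_smul]
  ext n
  constructor
  · intro hn
    by_contra hn'
    have := key2 n (hS hn)
    simp [δ, hn, hn'] at this
  · intro hn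
    by_contra hn'
    have := key2 n (hS' hn)
    simp [δ, hn, hn'] at this

/-- an `m`-element subset of `{-k g, …, k g}` -/
theorem upper (g : G) (p k d m : ℕ) (hg : addOrderOf g = p) (hp : 2 * k < p) (hm : m ≤ 2 * k + 1)
    (hfin : ∀ s ⊆ Icc 1 k, s.card = d + 1 → SumCollision s) :
    ∃ A : Finset G, A.card = m ∧ ∀ B : Finset G, B ⊆ A → Dissociated B → B.card ≤ d := by
  classical
  have hinj : Set.InjOn (fun j : ℤ => j • g) (Icc (-(k : ℤ)) k : Finset ℤ) := by
    intro a ha b hb hab
    rw [mem_coe, mem_Icc] at ha hb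
    have h1 : (a - b) • g = 0 := by rw [sub_smul, sub_eq_zero]; exact hab
    rw [← addOrderOf_dvd_iff_zsmul_eq_zero, hg] at h1
    by_contra hne
    have h2 := Int.le_of_dvd (abs_pos.2 (sub_ne_zero.2 hne)) ((dvd_abs _ _).2 h1)
    have h3 : |a - b| ≤ 2 * k := by
      rw [abs_le]; constructor <;> linarith [ha.1, ha.2, hb.1, hb.2]
    have h4 : (p : ℤ) ≤ 2 * k := h2.trans h3
    omega
  have hcard : ((Icc (-(k : ℤ)) k).image fun j : ℤ => j • g).card = 2 * k + 1 := by
    rw [card_image_of_injOn hinj, Int.card_Icc]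
    omega
  obtain ⟨A, hA, hAm⟩ := exists_subset_card_eq (show m ≤ ((Icc (-(k : ℤ)) k).image
    fun j : ℤ => j • g).card by rw [hcard]; exact hm)
  refine ⟨A, hAm, fun B hBA hd => upper_aux g k d hfin B ?_ hd⟩
  intro b hb
  obtain ⟨j, hj, rfl⟩ := mem_image.1 (hA (hBA hb))
  rw [mem_Icc] at hj
  exact ⟨j, abs_le.2 hj, rfl⟩

/-! ### the finite checks -/

theorem collision_of (k d : ℕ)
    (h : ∀ s ∈ powersetCard (d + 1) (Icc 1 k), (s.powerset.image fun S => ∑ n ∈ S, n).card < 2 ^ (d + 1)) :
    ∀ s ⊆ Icc 1 k, s.card = d + 1 → SumCollision s := by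
  intro s hs hc
  have h1 := h s (mem_powersetCard.2 ⟨hs, hc⟩)
  by_contra hcon
  have hinj : Set.InjOn (fun S : Finset ℕ => ∑ n ∈ S, n) (s.powerset : Set (Finset ℕ)) := by
    intro S hS S' hS' heq
    by_contra hne
    exact hcon ⟨S, mem_powerset.1 hS, S', mem_powerset.1 hS', hne, heq⟩
  rw [card_image_of_injOn hinj, card_powerset, hc] at h1
  exact lt_irrefl _ h1

theorem fin1 : ∀ s ⊆ Icc 1 1, s.card = 1 + 1 → SumCollision s := by
  apply collision_of; decide +kernel

theorem fin3 : ∀ s ⊆ Icc 1 3, s.card = 2 + 1 → SumCollision s := by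
  apply collision_of; decide +kernel

theorem fin6 : ∀ s ⊆ Icc 1 6, s.card = 3 + 1 → SumCollision s := by
  apply collision_of; decide +kernel

end Pool.Agent.Helper81.Dissoc
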