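import Pool.Agent.Helper81.Dissoc.Small

/-!
# Rectification: a character and Dirichlet's theorem
-/

set_option autoImplicit false

namespace Pool.Agent.Helper81.Dissoc

open Finset

variable {G : Type*} [AddCommGroup G] [Fintype G]

theorem lt_of_dvd {n d : ℕ} {q : ℕ} (hn : ∀ p : ℕ, p.Prime → p ∣ n → q < p) (hd : d ∣ n)
    (hd1 : d ≠ 1) (hd0 : d ≠ 0) : q < d :=
  (hn _ (Nat.minFac_prime hd1) ((Nat.minFac_dvd d).trans hd)).trans_le
    (Nat.minFac_le (Nat.pos_of_ne_zero hd0))

/-- the characters which are trivial at `g` -/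
def ker (g : G) : Subgroup (AddChar G ℂ) where
  carrier := {ψ | ψ g = 1}
  mul_mem' := by
    intro a b ha hb
    show (a * b) g = 1
    rw [AddChar.mul_apply, show a g = 1 from ha, show b g = 1 from hb, one_mul]
  one_mem' := by
    show (1 : AddChar G ℂ) g = 1
    rw [AddChar.one_apply]
  inv_mem' := by
    intro a ha
    show (a⁻¹) g = 1
    rw [AddChar.inv_apply, AddChar.map_neg_eq_inv, show a g = 1 from ha, inv_one]

theorem card_ker (q : ℕ) (hG : ∀ p : ℕ, p.Prime → p ∣ Fintype.card G → q < p) (g : G)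
    (hg : g ≠ 0) : q * Nat.card (ker g) ≤ Fintype.card G := by
  classical
  have h1 : Nat.card (ker g) * (ker g).index = Nat.card (AddChar G ℂ) :=
    Subgroup.card_mul_index _
  have h2 : Nat.card (AddChar G ℂ) = Fintype.card G := by
    rw [Nat.card_eq_fintype_card, AddChar.card_eq]
  have h3 : (ker g).index ≠ 1 := by
    intro h
    rw [Subgroup.index_eq_one] at h
    obtain ⟨ψ, hψ⟩ := AddChar.exists_apply_ne_zero.2 hg
    apply hψ
    have : ψ ∈ ker g := by rw [h]; trivial
    exact this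
  have h4 : (ker g).index ∣ Fintype.card G := by
    rw [← h2, ← h1]; exact dvd_mul_left _ _
  have h5 : (ker g).index ≠ 0 := by
    intro h
    rw [h, mul_zero] at h1
    rw [← h1] at h2
    exact Fintype.card_ne_zero h2.symm
  have h6 := lt_of_dvd hG h4 h3 h5
  calc q * Nat.card (ker g) ≤ (ker g).index * Nat.card (ker g) := by gcongr
    _ = Fintype.card G := by rw [mul_comm, h1, h2]

theorem exists_char (q : ℕ) (hG : ∀ p : ℕ, p.Prime → p ∣ Fintype.card G → q < p) (S : Finset G)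
    (hS : S.card < q) (h0 : ∀ g ∈ S, g ≠ 0) : ∃ ψ : AddChar G ℂ, ∀ g ∈ S, ψ g ≠ 1 := by
  classical
  by_contra hcon
  push Not at hcon
  have h1 : (univ : Finset (AddChar G ℂ)) ⊆
      S.biUnion fun g => univ.filter fun ψ : AddChar G ℂ => ψ ∈ ker g := by
    intro ψ _
    obtain ⟨g, hg, hψ⟩ := hcon ψ
    exact mem_biUnion.2 ⟨g, hg, mem_filter.2 ⟨mem_univ _, hψ⟩⟩
  have h2 : Fintype.card G ≤ ∑ g ∈ S, (univ.filter fun ψ : AddChar G ℂ => ψ ∈ ker g).card := by
    calc Fintype.card G = (univ : Finset (AddChar G ℂ)).card := by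
          rw [card_univ, AddChar.card_eq]
      _ ≤ _ := (card_le_card h1).trans card_biUnion_le
  have h3 : ∀ g ∈ S, q * (univ.filter fun ψ : AddChar G ℂ => ψ ∈ ker g).card ≤
      Fintype.card G := by
    intro g hg
    have := card_ker q hG g (h0 g hg)
    rwa [Nat.card_eq_fintype_card, Fintype.card_subtype] at this
  have h4 : q * Fintype.card G ≤ S.card * Fintype.card G := by
    calc q * Fintype.card G ≤
          q * ∑ g ∈ S, (univ.filter fun ψ : AddChar G ℂ => ψ ∈ ker g).card := by gcongr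
      _ = ∑ g ∈ S, q * (univ.filter fun ψ : AddChar G ℂ => ψ ∈ ker g).card := by rw [mul_sum]
      _ ≤ ∑ _g ∈ S, Fintype.card G := sum_le_sum h3
      _ = S.card * Fintype.card G := by rw [sum_const, smul_eq_mul]
  have h5 : 0 < Fintype.card G := Fintype.card_pos
  have h6 := Nat.le_of_mul_le_mul_right h4 h5
  omega

/-- Dirichlet: `1 ≤ t ≤ 4 ^ 7` with all `t θ x` within `1/4` of integers -/
theorem dirichlet {α : Type*} (T : Finset α) (hT : T.card ≤ 7) (θ : α → ℝ) :
    ∃ t : ℕ, 1 ≤ t ∧ t ≤ 16384 ∧ ∃ y : α → ℝ, ∀ x ∈ T, |y x| < 1 / 4 ∧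
      ∃ n : ℤ, y x = t * θ x + n := by
  classical
  let f : Fin 16385 → (T → Fin 4) := fun t x =>
    ⟨⌊4 * Int.fract (((t : ℕ) : ℝ) * θ x)⌋₊, by
      have h1 := Int.fract_nonneg (((t : ℕ) : ℝ) * θ x)
      have h2 := Int.fract_lt_one (((t : ℕ) : ℝ) * θ x)
      rw [Nat.floor_lt (by linarith)]
      push_cast
      linarith⟩
  have hcard : Fintype.card (T → Fin 4) < Fintype.card (Fin 16385) := by
    rw [Fintype.card_fun, Fintype.card_fin, Fintype.card_fin, Fintype.card_coe]
    calc 4 ^ T.card ≤ 4 ^ 7 := Nat.pow_le_pow_right (by norm_num) hT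
      _ < 16385 := by norm_num
  obtain ⟨t₁, t₂, hne, heq⟩ := Fintype.exists_ne_map_eq_of_card_lt f hcard
  wlog hlt : t₁ < t₂ generalizing t₁ t₂
  · exact this t₂ t₁ hne.symm heq.symm (lt_of_le_of_ne (not_lt.1 hlt) hne.symm)
  have hlt' : (t₁ : ℕ) < t₂ := hlt
  refine ⟨(t₂ : ℕ) - t₁, by omega, by have := t₂.2; omega,
    fun x => Int.fract (((t₂ : ℕ) : ℝ) * θ x) - Int.fract (((t₁ : ℕ) : ℝ) * θ x), ?_⟩
  intro x hx
  constructor
  · have h1 : ⌊4 * Int.fract (((t₁ : ℕ) : ℝ) * θ x)⌋₊ = ⌊4 * Int.fract (((t₂ : ℕ) : ℝ) * θ x)⌋₊ :=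
      congrArg Fin.val (congrFun heq ⟨x, hx⟩)
    have a1 := Nat.floor_le (show 0 ≤ 4 * Int.fract (((t₁ : ℕ) : ℝ) * θ x) by
      have := Int.fract_nonneg (((t₁ : ℕ) : ℝ) * θ x); linarith)
    have a2 := Nat.lt_floor_add_one (4 * Int.fract (((t₁ : ℕ) : ℝ) * θ x))
    have b1 := Nat.floor_le (show 0 ≤ 4 * Int.fract (((t₂ : ℕ) : ℝ) * θ x) by
      have := Int.fract_nonneg (((t₂ : ℕ) : ℝ) * θ x); linarith)
    have b2 := Nat.lt_floor_add_one (4 * Int.fract (((t₂ : ℕ) : ℝ) * θ x))
    rw [h1] at a1 a2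
    rw [abs_lt]
    constructor <;> linarith
  · refine ⟨⌊((t₁ : ℕ) : ℝ) * θ x⌋ - ⌊((t₂ : ℕ) : ℝ) * θ x⌋, ?_⟩
    have c1 := Int.fract_add_floor (((t₁ : ℕ) : ℝ) * θ x)
    have c2 := Int.fract_add_floor (((t₂ : ℕ) : ℝ) * θ x)
    rw [Nat.cast_sub hlt'.le]
    push_cast
    linarith

theorem exists_respects (hG : ∀ p : ℕ, p.Prime → p ∣ Fintype.card G → 16384 < p) (T : Finset G)
    (hT : T.card ≤ 7) (h0 : ∀ x ∈ T, x ≠ 0) (h1 : ∀ x ∈ T, ∀ x' ∈ T, x ≠ x' → x + x' ≠ 0) :
    ∃ y : G → ℝ, Respects T y := by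
  classical
  -- the elements to be avoided
  set S : Finset G := T ∪ (T.offDiag.image fun p => p.1 - p.2) ∪
    (T.offDiag.image fun p => p.1 + p.2) with hS
  have hScard : S.card < 16384 := by
    rw [hS]
    have e1 : T.offDiag.card ≤ 49 := by
      rw [offDiag_card]
      have : T.card * T.card ≤ 49 := by nlinarith
      omega
    have e2 := card_union_le (T ∪ (T.offDiag.image fun p => p.1 - p.2))
      (T.offDiag.image fun p => p.1 + p.2)
    have e3 := card_union_le T (T.offDiag.image fun p => p.1 - p.2)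
    have e4 := card_image_le (s := T.offDiag) (f := fun p : G × G => p.1 - p.2)
    have e5 := card_image_le (s := T.offDiag) (f := fun p : G × G => p.1 + p.2)
    omega
  have hS0 : ∀ g ∈ S, g ≠ 0 := by
    intro g hg
    rw [hS, mem_union, mem_union] at hg
    rcases hg with (hg | hg) | hg
    · exact h0 g hg
    · obtain ⟨p, hp, rfl⟩ := mem_image.1 hg
      rw [mem_offDiag] at hp
      exact sub_ne_zero.2 hp.2.2
    · obtain ⟨p, hp, rfl⟩ := mem_image.1 hg
      rw [mem_offDiag] at hp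
      exact h1 _ hp.1 _ hp.2.1 hp.2.2
  obtain ⟨ψ, hψ⟩ := exists_char 16384 hG S hScard hS0
  -- angles
  have hang : ∀ x : G, ∃ θ : ℝ, ψ x = Complex.exp (θ * (2 * Real.pi * Complex.I)) := by
    intro x
    refine ⟨Complex.arg (ψ x) / (2 * Real.pi), ?_⟩
    have hn : ‖ψ x‖ = 1 := AddChar.norm_apply ψ x
    have h2 := Complex.norm_mul_exp_arg_mul_I (ψ x)
    rw [hn, Complex.ofReal_one, one_mul] at h2
    have hpi : (Real.pi : ℂ) ≠ 0 := by exact_mod_cast Real.pi_ne_zero
    have h3 : ((Complex.arg (ψ x) / (2 * Real.pi) : ℝ) : ℂ) * (2 * Real.pi * Complex.I) =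
        Complex.arg (ψ x) * Complex.I := by
      push_cast
      field_simp
    rw [h3, h2]
  choose θ hθ using hang
  obtain ⟨t, ht1, ht2, y, hy⟩ := dirichlet T hT θ
  -- values of the character at multiples
  have hexp : ∀ x ∈ T, Complex.exp (y x * (2 * Real.pi * Complex.I)) = ψ x ^ t := by
    intro x hx
    obtain ⟨-, n, hn⟩ := hy x hx
    rw [hn, hθ x, ← Complex.exp_nat_mul]
    have : ((t * θ x + n : ℝ) : ℂ) * (2 * Real.pi * Complex.I) =
        t * (θ x * (2 * Real.pi * Complex.I)) + n * (2 * Real.pi * Complex.I) := by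
      push_cast; ring
    rw [this, Complex.exp_add, Complex.exp_int_mul_two_pi_mul_I, mul_one]
  have hcop : Nat.Coprime t (Fintype.card G) := by
    rw [Nat.coprime_iff_gcd_eq_one]
    by_contra hne
    have h2 := lt_of_dvd hG (Nat.gcd_dvd_right t (Fintype.card G)) hne
      (Nat.gcd_ne_zero_left (by omega))
    have h3 := Nat.le_of_dvd (by omega) (Nat.gcd_dvd_left t (Fintype.card G))
    omega
  have hone : ∀ g : G, ψ g ^ t = 1 → ψ g = 1 := by
    intro g hg
    have h2 : ψ g ^ Fintype.card G = 1 := by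
      rw [← AddChar.map_nsmul_eq_pow, card_nsmul_eq_zero, AddChar.map_zero_eq_one]
    have h3 := pow_gcd_eq_one.2 ⟨hg, h2⟩
    rw [hcop.gcd_eq_one, pow_one] at h3
    exact h3
  refine ⟨y, ?_, ?_, ?_⟩
  · intro B hB hBc ε hε hsum
    rcases B.eq_empty_or_nonempty with rfl | hne
    · simp
    -- the sum is an integer
    have hprod : Complex.exp ((∑ b ∈ B, (ε b : ℝ) * y b : ℝ) * (2 * Real.pi * Complex.I)) = 1 := by
      have e1 : ((∑ b ∈ B, (ε b : ℝ) * y b : ℝ) : ℂ) * (2 * Real.pi * Complex.I) =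
          ∑ b ∈ B, (ε b : ℂ) * (y b * (2 * Real.pi * Complex.I)) := by
        push_cast
        rw [sum_mul]
        exact sum_congr rfl fun b _ => by ring
      rw [e1, Complex.exp_sum]
      have e2 : ∀ b ∈ B, Complex.exp ((ε b : ℂ) * (y b * (2 * Real.pi * Complex.I))) =
          ψ (ε b • b) ^ t := by
        intro b hb
        rw [Complex.exp_int_mul, hexp b (hB hb), AddChar.map_zsmul_eq_zpow, ← zpow_natCast,
          ← zpow_natCast, ← zpow_mul, ← zpow_mul, mul_comm]
      rw [prod_congr rfl e2, prod_pow]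
      have e3 : ∏ b ∈ B, ψ (ε b • b) = ψ (∑ b ∈ B, ε b • b) := by
        clear e1 e2 hsum hε hBc hne hB
        induction B using Finset.induction_on with
        | empty => rw [prod_empty, sum_empty, AddChar.map_zero_eq_one]
        | insert a s ha ih => rw [prod_insert ha, sum_insert ha, AddChar.map_add_eq_mul, ih]
      rw [e3, hsum, AddChar.map_zero_eq_one, one_pow]
    rw [Complex.exp_eq_one_iff] at hprod
    obtain ⟨n, hn⟩ := hprod
    have hn' : ((∑ b ∈ B, (ε b : ℝ) * y b : ℝ) : ℂ) = (n : ℂ) := by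
      have h2 : (2 * Real.pi * Complex.I : ℂ) ≠ 0 := Complex.two_pi_I_ne_zero
      exact mul_right_cancel₀ h2 hn
    have hn'' : ∑ b ∈ B, (ε b : ℝ) * y b = n := by exact_mod_cast hn'
    have habs : |∑ b ∈ B, (ε b : ℝ) * y b| < 1 := by
      calc |∑ b ∈ B, (ε b : ℝ) * y b| ≤ ∑ b ∈ B, |(ε b : ℝ) * y b| := abs_sum_le_sum_abs _ _
        _ < ∑ _b ∈ B, (1 / 4 : ℝ) := by
          apply sum_lt_sum_of_nonempty hne
          intro b hb
          rw [abs_mul]
          have h2 := (hy b (hB hb)).1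
          rcases hε b hb with h | h | h <;> rw [h] <;> norm_num <;> linarith
        _ = B.card / 4 := by rw [sum_const, nsmul_eq_mul]; ring
        _ ≤ 1 := by
          have : (B.card : ℝ) ≤ 4 := by exact_mod_cast hBc
          linarith
    rw [hn''] at habs ⊢
    have : |n| < 1 := by exact_mod_cast habs
    rw [Int.abs_lt_one_iff] at this
    rw [this, Int.cast_zero]
  · intro x hx hyx
    have h2 := hexp x hx
    rw [hyx, Complex.ofReal_zero, zero_mul, Complex.exp_zero] at h2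
    exact hψ x (by rw [hS]; simp [hx]) (hone x h2.symm)
  · intro x hx x' hx' hyy
    by_contra hne
    rcases abs_eq_abs.1 hyy with h | h
    · have h2 := hexp x hx
      rw [h, hexp x' hx'] at h2
      have h3 : ψ (x - x') ^ t = 1 := by
        rw [AddChar.map_sub_eq_div, div_pow, ← h2, div_self]
        rw [← hexp x' hx']
        exact Complex.exp_ne_zero _
      refine hψ (x - x') ?_ (hone _ h3)
      rw [hS]
      exact mem_union_left _ (mem_union_right _ (mem_image.2 ⟨(x, x'), by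
        rw [mem_offDiag]; exact ⟨hx, hx', hne⟩, rfl⟩))
    · have h2 := hexp x hx
      have h3 : ψ (x + x') ^ t = 1 := by
        rw [AddChar.map_add_eq_mul, mul_pow, ← h2, ← hexp x' hx', ← Complex.exp_add, h]
        push_cast
        rw [neg_mul, neg_add_cancel, Complex.exp_zero]
      refine hψ (x + x') ?_ (hone _ h3)
      rw [hS]
      exact mem_union_right _ (mem_image.2 ⟨(x, x'), by
        rw [mem_offDiag]; exact ⟨hx, hx', hne⟩, rfl⟩)

end Pool.Agent.Helper81.Dissoc
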