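import Pool.Agent.Helper81.Dissoc.Seven

/-!
# Dissociated subsets of seven (four) positive reals
-/

set_option autoImplicit false

namespace Pool.Agent.Helper81.Dissoc

/-- four positive reals without one of the six relations are dissociated -/
theorem four_dissociated (x y z w : ℝ) (hx : 0 < x) (hxy : x < y) (hyz : y < z) (hzw : z < w)
    (hR : ¬ Rel4 x y z w) (a b c d : ℤ) (ha : a = -1 ∨ a = 0 ∨ a = 1) (hb : b = -1 ∨ b = 0 ∨ b = 1)
    (hc : c = -1 ∨ c = 0 ∨ c = 1) (hd : d = -1 ∨ d = 0 ∨ d = 1)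
    (h : (a : ℝ) * x + b * y + c * z + d * w = 0) : a = 0 ∧ b = 0 ∧ c = 0 ∧ d = 0 := by
  unfold Rel4 at hR
  push Not at hR
  obtain ⟨r1, r2, r3, r4, r5, r6⟩ := hR
  rcases ha with rfl | rfl | rfl <;> rcases hb with rfl | rfl | rfl <;>
    rcases hc with rfl | rfl | rfl <;> rcases hd with rfl | rfl | rfl <;>
    push_cast at h <;>
    first
      | exact ⟨rfl, rfl, rfl, rfl⟩
      | (exfalso; linarith)
      | exact absurd (by linarith) r1
      | exact absurd (by linarith) r2
      | exact absurd (by linarith) r3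
      | exact absurd (by linarith) r4
      | exact absurd (by linarith) r5
      | exact absurd (by linarith) r6

theorem three_dissociated (x y z : ℝ) (hx : 0 < x) (hxy : x < y) (hyz : y < z)
    (hR : x + y ≠ z) (a b c : ℤ) (ha : a = -1 ∨ a = 0 ∨ a = 1) (hb : b = -1 ∨ b = 0 ∨ b = 1)
    (hc : c = -1 ∨ c = 0 ∨ c = 1)
    (h : (a : ℝ) * x + b * y + c * z = 0) : a = 0 ∧ b = 0 ∧ c = 0 := by
  rcases ha with rfl | rfl | rfl <;> rcases hb with rfl | rfl | rfl <;>
    rcases hc with rfl | rfl | rfl <;>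
    push_cast at h <;>
    first
      | exact ⟨rfl, rfl, rfl⟩
      | (exfalso; linarith)
      | exact absurd (by linarith) hR

end Pool.Agent.Helper81.Dissoc
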