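import Pool.Agent.Helper81.Dissoc.Rectify
import Pool.Agent.Helper81.Dissoc.Fin12

/-!
# `dim(G, m)` for `m ≤ 25` and groups whose order has no prime factor `≤ 16384`
-/

set_option autoImplicit false

namespace Pool.Agent.Helper81.Dissoc

open Finset

variable {G : Type*} [AddCommGroup G] [Fintype G]

omit [Fintype G] in
theorem lower1 (A : Finset G) (hA : 2 ≤ A.card) : ∃ B : Finset G, B ⊆ A ∧ Dissociated B ∧
    1 ≤ B.card := by
  obtain ⟨T, hTA, hT, h0, -⟩ := exists_generic 1 A hA
  obtain ⟨B, hB, hd, hc⟩ := exists_one T hT h0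
  exact ⟨B, hB.trans hTA, hd, hc.ge⟩

omit [Fintype G] in
theorem lower2 (A : Finset G) (hA : 4 ≤ A.card) : ∃ B : Finset G, B ⊆ A ∧ Dissociated B ∧
    2 ≤ B.card := by
  obtain ⟨T, hTA, hT, h0, h1⟩ := exists_generic 2 A hA
  obtain ⟨B, hB, hd, hc⟩ := exists_two T hT h0 h1
  exact ⟨B, hB.trans hTA, hd, hc.ge⟩

theorem lower3 (hG : ∀ p : ℕ, p.Prime → p ∣ Fintype.card G → 16384 < p) (A : Finset G)
    (hA : 8 ≤ A.card) : ∃ B : Finset G, B ⊆ A ∧ Dissociated B ∧ 3 ≤ B.card := by
  obtain ⟨T, hTA, hT, h0, h1⟩ := exists_generic 4 A hA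
  obtain ⟨y, hy⟩ := exists_respects hG T (by omega) h0 h1
  obtain ⟨B, hB, hd, hc⟩ := exists_three T hT y hy
  exact ⟨B, hB.trans hTA, hd, hc.ge⟩

theorem lower4 (hG : ∀ p : ℕ, p.Prime → p ∣ Fintype.card G → 16384 < p) (A : Finset G)
    (hA : 14 ≤ A.card) : ∃ B : Finset G, B ⊆ A ∧ Dissociated B ∧ 4 ≤ B.card := by
  obtain ⟨T, hTA, hT, h0, h1⟩ := exists_generic 7 A hA
  obtain ⟨y, hy⟩ := exists_respects hG T (by omega) h0 h1
  obtain ⟨B, hB, hd, hc⟩ := exists_four T hT y hy
  exact ⟨B, hB.trans hTA, hd, hc.ge⟩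

theorem small_values (hG : ∀ p : ℕ, p.Prime → p ∣ Fintype.card G → 16384 < p) (m : ℕ)
    (hm1 : 1 ≤ m) (hmG : m ≤ Fintype.card G) (hm : m ≤ 25) :
    dimGm G m = if m ≤ 1 then 0 else if m ≤ 3 then 1 else if m ≤ 7 then 2 else
      if m ≤ 13 then 3 else 4 := by
  classical
  rcases Nat.lt_or_ge 1 m with h1 | h1
  · -- an element of large prime order
    have hne : Fintype.card G ≠ 1 := by omega
    have hp := Nat.minFac_prime hne
    have hpd := Nat.minFac_dvd (Fintype.card G)
    have : Fact (Fintype.card G).minFac.Prime := ⟨hp⟩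
    have hpl := hG _ hp hpd
    obtain ⟨g, hg⟩ := exists_prime_addOrderOf_dvd_card (Fintype.card G).minFac hpd
    rw [if_neg (by omega)]
    rcases Nat.lt_or_ge 3 m with h3 | h3
    · rw [if_neg (by omega)]
      rcases Nat.lt_or_ge 7 m with h7 | h7
      · rw [if_neg (by omega)]
        rcases Nat.lt_or_ge 13 m with h13 | h13
        · rw [if_neg (by omega)]
          exact dimGm_eq (fun A hA => lower4 hG A (by omega))
            (upper g _ 12 4 m hg (by omega) (by omega) fin12)
        · rw [if_pos h13]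
          exact dimGm_eq (fun A hA => lower3 hG A (by omega))
            (upper g _ 6 3 m hg (by omega) (by omega) fin6)
      · rw [if_pos h7]
        exact dimGm_eq (fun A hA => lower2 A (by omega))
          (upper g _ 3 2 m hg (by omega) (by omega) fin3)
    · rw [if_pos h3]
      exact dimGm_eq (fun A hA => lower1 A (by omega))
        (upper g _ 1 1 m hg (by omega) (by omega) fin1)
  · have hm1' : m = 1 := by omega
    subst hm1'
    rw [if_pos le_rfl]
    refine dimGm_eq (fun A _ => ⟨∅, empty_subset _, dissociated_empty, by simp⟩) ?_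
    refine ⟨{0}, card_singleton _, ?_⟩
    intro B hB hd
    rcases subset_singleton_iff.1 hB with rfl | rfl
    · simp
    · exfalso
      have h2 := hd (fun _ => 1) (fun _ _ => Or.inr (Or.inr rfl)) (by simp) 0 (by simp)
      simp at h2

end Pool.Agent.Helper81.Dissoc
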