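import Mathlib

/-!
# Seven positive numbers contain four with distinct subset sums

The proof is a case tree (found by computer): every one of its steps names four of the seven numbers and splits
into the six possible relations between four positive numbers `x < y < z < w`.
-/

set_option autoImplicit false

namespace Pool.Agent.Helper81.Dissoc

/-- the six possible relations between four positive numbers `x < y < z < w` -/
abbrev Rel4 (x y z w : ℝ) : Prop :=
  x + y = z ∨ x + y = w ∨ x + z = w ∨ y + z = w ∨ x + y + z = w ∨ x + w = y + z

set_option maxHeartbeats 4000000 in
theorem seven_tree (v : Fin 7 → ℝ) (h0 : 0 < v 0) (h1 : v 0 < v 1) (h2 : v 1 < v 2)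
    (h3 : v 2 < v 3) (h4 : v 3 < v 4) (h5 : v 4 < v 5) (h6 : v 5 < v 6)
    (H : ∀ i j k l : Fin 7, i < j → j < k → k < l → Rel4 (v i) (v j) (v k) (v l)) : False := by
  rcases H 0 1 2 3 (by decide) (by decide) (by decide) with e0 | e0 | e0 | e0 | e0 | e0
  · rcases H 0 1 3 4 (by decide) (by decide) (by decide) with e1 | e1 | e1 | e1 | e1 | e1
    · linarith
    · linarith
    · rcases H 0 1 3 5 (by decide) (by decide) (by decide) with e2 | e2 | e2 | e2 | e2 | e2
      · linarith
      · linarith
      · linarith
      · rcases H 0 1 3 6 (by decide) (by decide) (by decide) with e3 | e3 | e3 | e3 | e3 | e3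
        · linarith
        · linarith
        · linarith
        · linarith
        · rcases H 2 4 5 6 (by decide) (by decide) (by decide) with e4 | e4 | e4 | e4 | e4 | e4 <;> linarith
        · linarith
      · rcases H 0 1 3 6 (by decide) (by decide) (by decide) with e3 | e3 | e3 | e3 | e3 | e3 <;> linarith
      · rcases H 0 1 4 5 (by decide) (by decide) (by decide) with e3 | e3 | e3 | e3 | e3 | e3
        · linarith
        · linarith
        · rcases H 1 3 4 5 (by decide) (by decide) (by decide) with e4 | e4 | e4 | e4 | e4 | e4 <;> linarith
        · linarith
        · linarith
        · linarith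
    · rcases H 0 1 3 5 (by decide) (by decide) (by decide) with e2 | e2 | e2 | e2 | e2 | e2
      · linarith
      · linarith
      · linarith
      · linarith
      · rcases H 0 1 3 6 (by decide) (by decide) (by decide) with e3 | e3 | e3 | e3 | e3 | e3 <;> linarith
      · linarith
    · rcases H 0 1 3 5 (by decide) (by decide) (by decide) with e2 | e2 | e2 | e2 | e2 | e2 <;> linarith
    · rcases H 0 1 3 5 (by decide) (by decide) (by decide) with e2 | e2 | e2 | e2 | e2 | e2
      · linarith
      · linarith
      · rcases H 1 3 4 5 (by decide) (by decide) (by decide) with e3 | e3 | e3 | e3 | e3 | e3 <;> linarith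
      · rcases H 0 1 3 6 (by decide) (by decide) (by decide) with e3 | e3 | e3 | e3 | e3 | e3
        · linarith
        · linarith
        · linarith
        · linarith
        · rcases H 1 4 5 6 (by decide) (by decide) (by decide) with e4 | e4 | e4 | e4 | e4 | e4
          · linarith
          · rcases H 2 4 5 6 (by decide) (by decide) (by decide) with e5 | e5 | e5 | e5 | e5 | e5 <;> linarith
          · linarith
          · linarith
          · linarith
          · linarith
        · linarith
      · rcases H 0 1 3 6 (by decide) (by decide) (by decide) with e3 | e3 | e3 | e3 | e3 | e3 <;> linarith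
      · linarith
  · rcases H 0 1 2 4 (by decide) (by decide) (by decide) with e1 | e1 | e1 | e1 | e1 | e1
    · linarith
    · linarith
    · rcases H 0 1 2 5 (by decide) (by decide) (by decide) with e2 | e2 | e2 | e2 | e2 | e2
      · linarith
      · linarith
      · linarith
      · rcases H 0 1 2 6 (by decide) (by decide) (by decide) with e3 | e3 | e3 | e3 | e3 | e3
        · linarith
        · linarith
        · linarith
        · linarith
        · rcases H 3 4 5 6 (by decide) (by decide) (by decide) with e4 | e4 | e4 | e4 | e4 | e4 <;> linarith
        · linarith
      · rcases H 0 1 2 6 (by decide) (by decide) (by decide) with e3 | e3 | e3 | e3 | e3 | e3 <;> linarith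
      · rcases H 1 2 3 5 (by decide) (by decide) (by decide) with e3 | e3 | e3 | e3 | e3 | e3 <;> linarith
    · rcases H 0 1 2 5 (by decide) (by decide) (by decide) with e2 | e2 | e2 | e2 | e2 | e2
      · linarith
      · linarith
      · linarith
      · linarith
      · rcases H 0 1 2 6 (by decide) (by decide) (by decide) with e3 | e3 | e3 | e3 | e3 | e3 <;> linarith
      · linarith
    · rcases H 0 1 2 5 (by decide) (by decide) (by decide) with e2 | e2 | e2 | e2 | e2 | e2 <;> linarith
    · rcases H 1 2 3 4 (by decide) (by decide) (by decide) with e2 | e2 | e2 | e2 | e2 | e2
      · linarith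
      · linarith
      · linarith
      · linarith
      · linarith
      · rcases H 0 1 2 5 (by decide) (by decide) (by decide) with e3 | e3 | e3 | e3 | e3 | e3
        · linarith
        · linarith
        · linarith
        · rcases H 2 3 4 5 (by decide) (by decide) (by decide) with e4 | e4 | e4 | e4 | e4 | e4 <;> linarith
        · rcases H 0 1 2 6 (by decide) (by decide) (by decide) with e4 | e4 | e4 | e4 | e4 | e4 <;> linarith
        · linarith
  · rcases H 0 1 2 4 (by decide) (by decide) (by decide) with e1 | e1 | e1 | e1 | e1 | e1
    · rcases H 0 1 3 4 (by decide) (by decide) (by decide) with e2 | e2 | e2 | e2 | e2 | e2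
      · linarith
      · linarith
      · rcases H 0 1 3 5 (by decide) (by decide) (by decide) with e3 | e3 | e3 | e3 | e3 | e3
        · linarith
        · linarith
        · linarith
        · rcases H 0 1 3 6 (by decide) (by decide) (by decide) with e4 | e4 | e4 | e4 | e4 | e4
          · linarith
          · linarith
          · linarith
          · linarith
          · rcases H 2 4 5 6 (by decide) (by decide) (by decide) with e5 | e5 | e5 | e5 | e5 | e5 <;> linarith
          · linarith
        · rcases H 0 1 3 6 (by decide) (by decide) (by decide) with e4 | e4 | e4 | e4 | e4 | e4 <;> linarith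
        · rcases H 0 1 4 5 (by decide) (by decide) (by decide) with e4 | e4 | e4 | e4 | e4 | e4
          · linarith
          · linarith
          · rcases H 1 3 4 5 (by decide) (by decide) (by decide) with e5 | e5 | e5 | e5 | e5 | e5 <;> linarith
          · linarith
          · linarith
          · linarith
      · rcases H 0 1 3 5 (by decide) (by decide) (by decide) with e3 | e3 | e3 | e3 | e3 | e3
        · linarith
        · linarith
        · linarith
        · linarith
        · rcases H 0 1 3 6 (by decide) (by decide) (by decide) with e4 | e4 | e4 | e4 | e4 | e4 <;> linarith
        · linarith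
      · rcases H 0 1 3 5 (by decide) (by decide) (by decide) with e3 | e3 | e3 | e3 | e3 | e3 <;> linarith
      · rcases H 0 1 3 5 (by decide) (by decide) (by decide) with e3 | e3 | e3 | e3 | e3 | e3
        · linarith
        · linarith
        · rcases H 0 2 4 5 (by decide) (by decide) (by decide) with e4 | e4 | e4 | e4 | e4 | e4 <;> linarith
        · rcases H 0 1 3 6 (by decide) (by decide) (by decide) with e4 | e4 | e4 | e4 | e4 | e4
          · linarith
          · linarith
          · linarith
          · linarith
          · rcases H 2 4 5 6 (by decide) (by decide) (by decide) with e5 | e5 | e5 | e5 | e5 | e5 <;> linarith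
          · linarith
        · rcases H 0 1 3 6 (by decide) (by decide) (by decide) with e4 | e4 | e4 | e4 | e4 | e4 <;> linarith
        · linarith
    · linarith
    · linarith
    · rcases H 0 1 2 5 (by decide) (by decide) (by decide) with e2 | e2 | e2 | e2 | e2 | e2
      · rcases H 0 1 3 5 (by decide) (by decide) (by decide) with e3 | e3 | e3 | e3 | e3 | e3
        · linarith
        · linarith
        · rcases H 0 2 4 5 (by decide) (by decide) (by decide) with e4 | e4 | e4 | e4 | e4 | e4 <;> linarith
        · rcases H 0 1 3 6 (by decide) (by decide) (by decide) with e4 | e4 | e4 | e4 | e4 | e4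
          · linarith
          · linarith
          · linarith
          · linarith
          · rcases H 2 4 5 6 (by decide) (by decide) (by decide) with e5 | e5 | e5 | e5 | e5 | e5 <;> linarith
          · linarith
        · rcases H 0 1 3 6 (by decide) (by decide) (by decide) with e4 | e4 | e4 | e4 | e4 | e4 <;> linarith
        · linarith
      · linarith
      · linarith
      · linarith
      · rcases H 0 1 2 6 (by decide) (by decide) (by decide) with e3 | e3 | e3 | e3 | e3 | e3
        · rcases H 0 1 3 6 (by decide) (by decide) (by decide) with e4 | e4 | e4 | e4 | e4 | e4
          · linarith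
          · linarith
          · linarith
          · linarith
          · rcases H 2 4 5 6 (by decide) (by decide) (by decide) with e5 | e5 | e5 | e5 | e5 | e5 <;> linarith
          · linarith
        · linarith
        · linarith
        · linarith
        · linarith
        · linarith
      · linarith
    · rcases H 0 1 2 5 (by decide) (by decide) (by decide) with e2 | e2 | e2 | e2 | e2 | e2
      · rcases H 0 1 3 5 (by decide) (by decide) (by decide) with e3 | e3 | e3 | e3 | e3 | e3
        · linarith
        · linarith
        · linarith
        · linarith
        · rcases H 0 1 3 6 (by decide) (by decide) (by decide) with e4 | e4 | e4 | e4 | e4 | e4 <;> linarith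
        · linarith
      · linarith
      · linarith
      · linarith
      · linarith
      · linarith
    · rcases H 0 1 3 4 (by decide) (by decide) (by decide) with e2 | e2 | e2 | e2 | e2 | e2
      · linarith
      · linarith
      · rcases H 1 2 3 4 (by decide) (by decide) (by decide) with e3 | e3 | e3 | e3 | e3 | e3
        · linarith
        · linarith
        · linarith
        · linarith
        · linarith
        · rcases H 0 1 3 5 (by decide) (by decide) (by decide) with e4 | e4 | e4 | e4 | e4 | e4
          · linarith
          · linarith
          · linarith
          · rcases H 0 2 4 5 (by decide) (by decide) (by decide) with e5 | e5 | e5 | e5 | e5 | e5 <;> linarith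
          · rcases H 0 1 3 6 (by decide) (by decide) (by decide) with e5 | e5 | e5 | e5 | e5 | e5 <;> linarith
          · rcases H 1 3 4 5 (by decide) (by decide) (by decide) with e5 | e5 | e5 | e5 | e5 | e5 <;> linarith
      · linarith
      · linarith
      · linarith
  · rcases H 0 1 2 4 (by decide) (by decide) (by decide) with e1 | e1 | e1 | e1 | e1 | e1
    · rcases H 0 1 3 4 (by decide) (by decide) (by decide) with e2 | e2 | e2 | e2 | e2 | e2
      · linarith
      · linarith
      · rcases H 0 1 3 5 (by decide) (by decide) (by decide) with e3 | e3 | e3 | e3 | e3 | e3
        · linarith
        · linarith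
        · linarith
        · rcases H 2 3 4 5 (by decide) (by decide) (by decide) with e4 | e4 | e4 | e4 | e4 | e4 <;> linarith
        · rcases H 0 1 3 6 (by decide) (by decide) (by decide) with e4 | e4 | e4 | e4 | e4 | e4 <;> linarith
        · rcases H 0 2 3 5 (by decide) (by decide) (by decide) with e4 | e4 | e4 | e4 | e4 | e4 <;> linarith
      · rcases H 0 1 3 5 (by decide) (by decide) (by decide) with e3 | e3 | e3 | e3 | e3 | e3
        · linarith
        · linarith
        · linarith
        · linarith
        · rcases H 0 1 3 6 (by decide) (by decide) (by decide) with e4 | e4 | e4 | e4 | e4 | e4 <;> linarith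
        · linarith
      · rcases H 0 1 3 5 (by decide) (by decide) (by decide) with e3 | e3 | e3 | e3 | e3 | e3 <;> linarith
      · rcases H 0 2 3 4 (by decide) (by decide) (by decide) with e3 | e3 | e3 | e3 | e3 | e3
        · linarith
        · linarith
        · rcases H 0 1 3 5 (by decide) (by decide) (by decide) with e4 | e4 | e4 | e4 | e4 | e4
          · linarith
          · linarith
          · linarith
          · rcases H 2 3 4 5 (by decide) (by decide) (by decide) with e5 | e5 | e5 | e5 | e5 | e5 <;> linarith
          · rcases H 0 1 3 6 (by decide) (by decide) (by decide) with e5 | e5 | e5 | e5 | e5 | e5 <;> linarith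
          · linarith
        · linarith
        · linarith
        · linarith
    · linarith
    · linarith
    · linarith
    · rcases H 0 1 2 5 (by decide) (by decide) (by decide) with e2 | e2 | e2 | e2 | e2 | e2
      · rcases H 0 1 3 5 (by decide) (by decide) (by decide) with e3 | e3 | e3 | e3 | e3 | e3
        · linarith
        · linarith
        · linarith
        · rcases H 2 3 4 5 (by decide) (by decide) (by decide) with e4 | e4 | e4 | e4 | e4 | e4 <;> linarith
        · rcases H 0 1 3 6 (by decide) (by decide) (by decide) with e4 | e4 | e4 | e4 | e4 | e4 <;> linarith
        · rcases H 0 2 3 5 (by decide) (by decide) (by decide) with e4 | e4 | e4 | e4 | e4 | e4 <;> linarith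
      · linarith
      · linarith
      · linarith
      · linarith
      · linarith
    · linarith
  · rcases H 0 1 2 4 (by decide) (by decide) (by decide) with e1 | e1 | e1 | e1 | e1 | e1
    · rcases H 0 1 3 4 (by decide) (by decide) (by decide) with e2 | e2 | e2 | e2 | e2 | e2
      · linarith
      · linarith
      · rcases H 0 1 3 5 (by decide) (by decide) (by decide) with e3 | e3 | e3 | e3 | e3 | e3
        · linarith
        · linarith
        · linarith
        · rcases H 2 3 4 5 (by decide) (by decide) (by decide) with e4 | e4 | e4 | e4 | e4 | e4 <;> linarith
        · rcases H 0 1 3 6 (by decide) (by decide) (by decide) with e4 | e4 | e4 | e4 | e4 | e4 <;> linarith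
        · rcases H 0 2 3 5 (by decide) (by decide) (by decide) with e4 | e4 | e4 | e4 | e4 | e4 <;> linarith
      · rcases H 0 1 3 5 (by decide) (by decide) (by decide) with e3 | e3 | e3 | e3 | e3 | e3
        · linarith
        · linarith
        · linarith
        · linarith
        · rcases H 0 1 3 6 (by decide) (by decide) (by decide) with e4 | e4 | e4 | e4 | e4 | e4 <;> linarith
        · linarith
      · rcases H 0 1 3 5 (by decide) (by decide) (by decide) with e3 | e3 | e3 | e3 | e3 | e3 <;> linarith
      · rcases H 0 2 3 4 (by decide) (by decide) (by decide) with e3 | e3 | e3 | e3 | e3 | e3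
        · linarith
        · linarith
        · rcases H 0 1 3 5 (by decide) (by decide) (by decide) with e4 | e4 | e4 | e4 | e4 | e4
          · linarith
          · linarith
          · linarith
          · rcases H 2 3 4 5 (by decide) (by decide) (by decide) with e5 | e5 | e5 | e5 | e5 | e5 <;> linarith
          · rcases H 0 1 3 6 (by decide) (by decide) (by decide) with e5 | e5 | e5 | e5 | e5 | e5 <;> linarith
          · linarith
        · linarith
        · linarith
        · linarith
    · linarith
    · linarith
    · linarith
    · linarith
    · linarith
  · rcases H 0 1 2 4 (by decide) (by decide) (by decide) with e1 | e1 | e1 | e1 | e1 | e1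
    · rcases H 0 1 3 4 (by decide) (by decide) (by decide) with e2 | e2 | e2 | e2 | e2 | e2
      · linarith
      · linarith
      · rcases H 0 1 3 5 (by decide) (by decide) (by decide) with e3 | e3 | e3 | e3 | e3 | e3
        · linarith
        · linarith
        · linarith
        · rcases H 0 1 3 6 (by decide) (by decide) (by decide) with e4 | e4 | e4 | e4 | e4 | e4
          · linarith
          · linarith
          · linarith
          · linarith
          · rcases H 2 4 5 6 (by decide) (by decide) (by decide) with e5 | e5 | e5 | e5 | e5 | e5 <;> linarith
          · linarith
        · rcases H 0 1 3 6 (by decide) (by decide) (by decide) with e4 | e4 | e4 | e4 | e4 | e4 <;> linarith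
        · rcases H 0 2 3 5 (by decide) (by decide) (by decide) with e4 | e4 | e4 | e4 | e4 | e4 <;> linarith
      · rcases H 0 1 3 5 (by decide) (by decide) (by decide) with e3 | e3 | e3 | e3 | e3 | e3
        · linarith
        · linarith
        · linarith
        · linarith
        · rcases H 0 1 3 6 (by decide) (by decide) (by decide) with e4 | e4 | e4 | e4 | e4 | e4 <;> linarith
        · linarith
      · rcases H 0 1 3 5 (by decide) (by decide) (by decide) with e3 | e3 | e3 | e3 | e3 | e3 <;> linarith
      · rcases H 1 2 3 4 (by decide) (by decide) (by decide) with e3 | e3 | e3 | e3 | e3 | e3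
        · linarith
        · rcases H 0 1 3 5 (by decide) (by decide) (by decide) with e4 | e4 | e4 | e4 | e4 | e4
          · linarith
          · linarith
          · linarith
          · rcases H 0 1 3 6 (by decide) (by decide) (by decide) with e5 | e5 | e5 | e5 | e5 | e5
            · linarith
            · linarith
            · linarith
            · linarith
            · rcases H 2 4 5 6 (by decide) (by decide) (by decide) with e6 | e6 | e6 | e6 | e6 | e6 <;> linarith
            · linarith
          · rcases H 0 1 3 6 (by decide) (by decide) (by decide) with e5 | e5 | e5 | e5 | e5 | e5 <;> linarith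
          · linarith
        · linarith
        · linarith
        · linarith
        · rcases H 0 1 3 5 (by decide) (by decide) (by decide) with e4 | e4 | e4 | e4 | e4 | e4
          · linarith
          · linarith
          · linarith
          · rcases H 0 1 3 6 (by decide) (by decide) (by decide) with e5 | e5 | e5 | e5 | e5 | e5
            · linarith
            · linarith
            · linarith
            · linarith
            · rcases H 2 4 5 6 (by decide) (by decide) (by decide) with e6 | e6 | e6 | e6 | e6 | e6 <;> linarith
            · linarith
          · rcases H 0 1 3 6 (by decide) (by decide) (by decide) with e5 | e5 | e5 | e5 | e5 | e5 <;> linarith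
          · linarith
    · rcases H 0 2 3 4 (by decide) (by decide) (by decide) with e2 | e2 | e2 | e2 | e2 | e2
      · linarith
      · linarith
      · linarith
      · linarith
      · linarith
      · rcases H 1 2 3 4 (by decide) (by decide) (by decide) with e3 | e3 | e3 | e3 | e3 | e3 <;> linarith
    · rcases H 1 2 3 4 (by decide) (by decide) (by decide) with e2 | e2 | e2 | e2 | e2 | e2
      · linarith
      · linarith
      · linarith
      · linarith
      · linarith
      · rcases H 0 1 2 5 (by decide) (by decide) (by decide) with e3 | e3 | e3 | e3 | e3 | e3
        · linarith
        · linarith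
        · linarith
        · rcases H 1 3 4 5 (by decide) (by decide) (by decide) with e4 | e4 | e4 | e4 | e4 | e4 <;> linarith
        · rcases H 0 1 2 6 (by decide) (by decide) (by decide) with e4 | e4 | e4 | e4 | e4 | e4 <;> linarith
        · linarith
    · rcases H 0 1 2 5 (by decide) (by decide) (by decide) with e2 | e2 | e2 | e2 | e2 | e2
      · rcases H 0 1 3 5 (by decide) (by decide) (by decide) with e3 | e3 | e3 | e3 | e3 | e3
        · linarith
        · linarith
        · linarith
        · rcases H 0 1 3 6 (by decide) (by decide) (by decide) with e4 | e4 | e4 | e4 | e4 | e4
          · linarith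
          · linarith
          · linarith
          · linarith
          · rcases H 2 4 5 6 (by decide) (by decide) (by decide) with e5 | e5 | e5 | e5 | e5 | e5 <;> linarith
          · linarith
        · rcases H 0 1 3 6 (by decide) (by decide) (by decide) with e4 | e4 | e4 | e4 | e4 | e4 <;> linarith
        · rcases H 0 2 3 5 (by decide) (by decide) (by decide) with e4 | e4 | e4 | e4 | e4 | e4 <;> linarith
      · linarith
      · linarith
      · linarith
      · rcases H 0 1 2 6 (by decide) (by decide) (by decide) with e3 | e3 | e3 | e3 | e3 | e3
        · rcases H 1 2 3 5 (by decide) (by decide) (by decide) with e4 | e4 | e4 | e4 | e4 | e4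
          · linarith
          · linarith
          · rcases H 0 1 3 6 (by decide) (by decide) (by decide) with e5 | e5 | e5 | e5 | e5 | e5
            · linarith
            · linarith
            · linarith
            · linarith
            · rcases H 2 4 5 6 (by decide) (by decide) (by decide) with e6 | e6 | e6 | e6 | e6 | e6 <;> linarith
            · linarith
          · linarith
          · linarith
          · linarith
        · linarith
        · linarith
        · linarith
        · linarith
        · linarith
      · linarith
    · rcases H 0 1 2 5 (by decide) (by decide) (by decide) with e2 | e2 | e2 | e2 | e2 | e2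
      · rcases H 1 2 3 4 (by decide) (by decide) (by decide) with e3 | e3 | e3 | e3 | e3 | e3
        · linarith
        · linarith
        · rcases H 0 1 3 5 (by decide) (by decide) (by decide) with e4 | e4 | e4 | e4 | e4 | e4
          · linarith
          · linarith
          · linarith
          · linarith
          · rcases H 0 1 3 6 (by decide) (by decide) (by decide) with e5 | e5 | e5 | e5 | e5 | e5 <;> linarith
          · linarith
        · linarith
        · linarith
        · linarith
      · linarith
      · linarith
      · linarith
      · linarith
      · linarith
    · linarith

end Pool.Agent.Helper81.Dissoc
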