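import Pool.Agent.Helper81.Dissoc.Rel
import Pool.Agent.Helper81.Dissoc.Basic

/-!
# Seven elements with small real coordinates contain a dissociated set of four
-/

set_option autoImplicit false

namespace Pool.Agent.Helper81.Dissoc

variable {G : Type*} [AddCommGroup G]

/-- `y` turns the relations of at most four elements of `T` into relations of real numbers, has no zero and is
injective up to sign on `T` -/
def Respects (T : Finset G) (y : G → ℝ) : Prop :=
  (∀ B ⊆ T, B.card ≤ 4 → ∀ ε : G → ℤ, (∀ b ∈ B, ε b = -1 ∨ ε b = 0 ∨ ε b = 1) →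
    ∑ b ∈ B, ε b • b = 0 → ∑ b ∈ B, (ε b : ℝ) * y b = 0) ∧
  (∀ x ∈ T, y x ≠ 0) ∧ (∀ x ∈ T, ∀ x' ∈ T, |y x| = |y x'| → x = x')

/-- sign -/
noncomputable def sg (r : ℝ) : ℤ := if 0 ≤ r then 1 else -1

theorem sg_mul_abs (r : ℝ) : (sg r : ℝ) * |r| = r := by
  unfold sg
  split_ifs with h
  · rw [abs_of_nonneg h]; push_cast; ring
  · rw [abs_of_neg (not_le.1 h)]; push_cast; ring

theorem sg_cases (r : ℝ) (a : ℤ) (ha : a = -1 ∨ a = 0 ∨ a = 1) :
    (a * sg r = -1 ∨ a * sg r = 0 ∨ a * sg r = 1) ∧ (a * sg r = 0 → a = 0) := by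
  unfold sg
  split_ifs <;> rcases ha with rfl | rfl | rfl <;> norm_num

omit [AddCommGroup G] in
/-- the elements of `T` in the order of `|y|` -/
theorem exists_enum (T : Finset G) (y : G → ℝ) (n : ℕ) (hT : T.card = n)
    (h : ∀ x ∈ T, ∀ x' ∈ T, |y x| = |y x'| → x = x') :
    ∃ x : Fin n → G, (∀ i, x i ∈ T) ∧ StrictMono (fun i => |y (x i)|) := by
  classical
  have hc : (T.image fun x => |y x|).card = n := by
    rw [Finset.card_image_of_injOn (fun a ha b hb hab => h a ha b hb hab), hT]
  have hex : ∀ i : Fin n, ∃ x ∈ T, |y x| = (T.image fun x => |y x|).orderEmbOfFin hc i := by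
    intro i
    have := Finset.orderEmbOfFin_mem (T.image fun x => |y x|) hc i
    obtain ⟨x, hx, hxy⟩ := Finset.mem_image.1 this
    exact ⟨x, hx, hxy⟩
  choose x hx hxy using hex
  refine ⟨x, hx, ?_⟩
  intro i j hij
  simp only [hxy]
  exact ((T.image fun x => |y x|).orderEmbOfFin hc).strictMono hij

theorem exists_four (T : Finset G) (hT : T.card = 7) (y : G → ℝ) (hy : Respects T y) :
    ∃ B ⊆ T, Dissociated B ∧ B.card = 4 := by
  classical
  obtain ⟨h1, h2, h3⟩ := hy
  obtain ⟨x, hx, hmono⟩ := exists_enum T y 7 hT h3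
  by_contra hcon
  refine seven_tree (fun i => |y (x i)|) (abs_pos.2 (h2 _ (hx 0))) (hmono (by decide))
    (hmono (by decide)) (hmono (by decide)) (hmono (by decide)) (hmono (by decide))
    (hmono (by decide)) ?_
  intro i j k l hij hjk hkl
  by_contra hR
  apply hcon
  have hinj : Function.Injective x := fun a b hab => hmono.injective (by simp only [hab])
  have nij : x i ≠ x j := fun h => hij.ne (hinj h)
  have njk : x j ≠ x k := fun h => hjk.ne (hinj h)
  have nkl : x k ≠ x l := fun h => hkl.ne (hinj h)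
  have nik : x i ≠ x k := fun h => (hij.trans hjk).ne (hinj h)
  have njl : x j ≠ x l := fun h => (hjk.trans hkl).ne (hinj h)
  have nil : x i ≠ x l := fun h => ((hij.trans hjk).trans hkl).ne (hinj h)
  have hcard : ({x i, x j, x k, x l} : Finset G).card = 4 := by
    rw [Finset.card_insert_of_notMem (by simp [nij, nik, nil]),
      Finset.card_insert_of_notMem (by simp [njk, njl]), Finset.card_pair nkl]
  have hsub : ({x i, x j, x k, x l} : Finset G) ⊆ T := by
    intro b hb
    simp only [Finset.mem_insert, Finset.mem_singleton] at hb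
    rcases hb with rfl | rfl | rfl | rfl <;> exact hx _
  refine ⟨{x i, x j, x k, x l}, hsub, ?_, hcard⟩
  intro ε hε hsum
  have hs := h1 _ hsub hcard.le ε hε hsum
  rw [Finset.sum_insert (by simp [nij, nik, nil]), Finset.sum_insert (by simp [njk, njl]),
    Finset.sum_pair nkl] at hs
  have ei := hε (x i) (by simp)
  have ej := hε (x j) (by simp)
  have ek := hε (x k) (by simp)
  have el := hε (x l) (by simp)
  have key := four_dissociated (|y (x i)|) (|y (x j)|) (|y (x k)|) (|y (x l)|)
    (abs_pos.2 (h2 _ (hx i))) (hmono hij) (hmono hjk) (hmono hkl) hR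
    (ε (x i) * sg (y (x i))) (ε (x j) * sg (y (x j))) (ε (x k) * sg (y (x k)))
    (ε (x l) * sg (y (x l))) (sg_cases _ _ ei).1 (sg_cases _ _ ej).1 (sg_cases _ _ ek).1
    (sg_cases _ _ el).1 (by
      push_cast
      rw [mul_assoc, mul_assoc, mul_assoc, mul_assoc, sg_mul_abs, sg_mul_abs, sg_mul_abs,
        sg_mul_abs]
      linarith)
  obtain ⟨ki, kj, kk, kl⟩ := key
  intro b hb
  simp only [Finset.mem_insert, Finset.mem_singleton] at hb
  rcases hb with rfl | rfl | rfl | rfl
  · exact (sg_cases _ _ ei).2 ki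
  · exact (sg_cases _ _ ej).2 kj
  · exact (sg_cases _ _ ek).2 kk
  · exact (sg_cases _ _ el).2 kl

theorem exists_three (T : Finset G) (hT : T.card = 4) (y : G → ℝ) (hy : Respects T y) :
    ∃ B ⊆ T, Dissociated B ∧ B.card = 3 := by
  classical
  obtain ⟨h1, h2, h3⟩ := hy
  obtain ⟨x, hx, hmono⟩ := exists_enum T y 4 hT h3
  have hinj : Function.Injective x := fun a b hab => hmono.injective (by simp only [hab])
  have key : ∀ k : Fin 4, 1 < k → |y (x 0)| + |y (x 1)| ≠ |y (x k)| →
      ∃ B ⊆ T, Dissociated B ∧ B.card = 3 := by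
    intro k hk hR
    have n01 : x 0 ≠ x 1 := fun h => absurd (hinj h) (by decide)
    have n1k : x 1 ≠ x k := fun h => hk.ne (hinj h)
    have h0k : (0 : Fin 4) < k := lt_trans (by decide) hk
    have n0k : x 0 ≠ x k := fun h => h0k.ne (hinj h)
    have hcard : ({x 0, x 1, x k} : Finset G).card = 3 := by
      rw [Finset.card_insert_of_notMem (by simp [n01, n0k]), Finset.card_pair n1k]
    have hsub : ({x 0, x 1, x k} : Finset G) ⊆ T := by
      intro b hb
      simp only [Finset.mem_insert, Finset.mem_singleton] at hb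
      rcases hb with rfl | rfl | rfl <;> exact hx _
    refine ⟨{x 0, x 1, x k}, hsub, ?_, hcard⟩
    intro ε hε hsum
    have hs := h1 _ hsub (by omega) ε hε hsum
    rw [Finset.sum_insert (by simp [n01, n0k]), Finset.sum_pair n1k] at hs
    have e0 := hε (x 0) (by simp)
    have e1 := hε (x 1) (by simp)
    have ek := hε (x k) (by simp)
    have key := three_dissociated (|y (x 0)|) (|y (x 1)|) (|y (x k)|)
      (abs_pos.2 (h2 _ (hx 0))) (hmono (by decide)) (hmono hk) hR
      (ε (x 0) * sg (y (x 0))) (ε (x 1) * sg (y (x 1))) (ε (x k) * sg (y (x k)))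
      (sg_cases _ _ e0).1 (sg_cases _ _ e1).1 (sg_cases _ _ ek).1 (by
        push_cast
        rw [mul_assoc, mul_assoc, mul_assoc, sg_mul_abs, sg_mul_abs, sg_mul_abs]
        linarith)
    obtain ⟨k0, k1, kk⟩ := key
    intro b hb
    simp only [Finset.mem_insert, Finset.mem_singleton] at hb
    rcases hb with rfl | rfl | rfl
    · exact (sg_cases _ _ e0).2 k0
    · exact (sg_cases _ _ e1).2 k1
    · exact (sg_cases _ _ ek).2 kk
  by_cases h : |y (x 0)| + |y (x 1)| = |y (x 2)|
  · refine key 3 (by decide) ?_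
    rw [h]
    exact (hmono (show (2 : Fin 4) < 3 by decide)).ne
  · exact key 2 (by decide) h

theorem exists_two (T : Finset G) (hT : T.card = 2) (h0 : ∀ x ∈ T, x ≠ 0)
    (h1 : ∀ x ∈ T, ∀ x' ∈ T, x ≠ x' → x + x' ≠ 0) : ∃ B ⊆ T, Dissociated B ∧ B.card = 2 := by
  classical
  obtain ⟨a, b, hab, rfl⟩ := Finset.card_eq_two.1 hT
  refine ⟨{a, b}, Finset.Subset.refl _, ?_, hT⟩
  have ha : a ≠ 0 := h0 a (by simp)
  have hb : b ≠ 0 := h0 b (by simp)
  have hs : a + b ≠ 0 := h1 a (by simp) b (by simp) hab
  intro ε hε hsum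
  rw [Finset.sum_pair hab] at hsum
  have ea := hε a (by simp)
  have eb := hε b (by simp)
  have hfin : ε a = 0 ∧ ε b = 0 := by
    rcases ea with ea | ea | ea <;> rcases eb with eb | eb | eb <;> rw [ea, eb] at hsum ⊢
    · exfalso; apply hs
      have : -(a + b) = 0 := by rw [← hsum]; simp; abel
      rwa [neg_eq_zero] at this
    · exfalso; apply ha; simpa using hsum
    · exfalso; apply hab
      have : b - a = 0 := by rw [← hsum]; simp; abel
      exact (sub_eq_zero.1 this).symm
    · exfalso; apply hb; simpa using hsum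
    · exact ⟨rfl, rfl⟩
    · exfalso; apply hb; simpa using hsum
    · exfalso; apply hab
      have : a - b = 0 := by rw [← hsum]; simp; abel
      exact sub_eq_zero.1 this
    · exfalso; apply ha; simpa using hsum
    · exfalso; apply hs; simpa using hsum
  intro c hc
  simp only [Finset.mem_insert, Finset.mem_singleton] at hc
  rcases hc with rfl | rfl
  · exact hfin.1
  · exact hfin.2

theorem exists_one (T : Finset G) (hT : T.card = 1) (h0 : ∀ x ∈ T, x ≠ 0) :
    ∃ B ⊆ T, Dissociated B ∧ B.card = 1 := by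
  classical
  obtain ⟨a, rfl⟩ := Finset.card_eq_one.1 hT
  refine ⟨{a}, Finset.Subset.refl _, ?_, hT⟩
  have ha : a ≠ 0 := h0 a (by simp)
  intro ε hε hsum
  rw [Finset.sum_singleton] at hsum
  intro c hc
  rw [Finset.mem_singleton] at hc
  subst hc
  rcases hε c (by simp) with h | h | h
  · rw [h] at hsum; exfalso; apply ha; simpa using hsum
  · exact h
  · rw [h] at hsum; exfalso; apply ha; simpa using hsum

theorem exists_generic (k : ℕ) : ∀ A : Finset G, 2 * k ≤ A.card →
    ∃ T ⊆ A, T.card = k ∧ (∀ x ∈ T, x ≠ 0) ∧ (∀ x ∈ T, ∀ x' ∈ T, x ≠ x' → x + x' ≠ 0) := by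
  classical
  have main : ∀ A : Finset G, 2 * k ≤ (A.erase 0).card + 1 →
      ∃ T ⊆ A, T.card = k ∧ (∀ x ∈ T, x ≠ 0) ∧ (∀ x ∈ T, ∀ x' ∈ T, x ≠ x' → x + x' ≠ 0) := by
    induction k with
    | zero => exact fun A _ => ⟨∅, by simp, by simp, by simp, by simp⟩
    | succ k ih =>
      intro A hA
      obtain ⟨x, hx⟩ : (A.erase 0).Nonempty := Finset.card_pos.1 (by omega)
      have hx0 : x ≠ 0 := Finset.ne_of_mem_erase hx
      have hxA : x ∈ A := Finset.mem_of_mem_erase hx
      have hsub : ((A.erase 0).erase x).erase (-x) ⊆ ((A.erase x).erase (-x)).erase 0 := by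
        intro z hz
        simp only [Finset.mem_erase] at hz ⊢
        tauto
      have hc1 := Finset.card_le_card hsub
      have hc2 : (A.erase 0).card ≤ (((A.erase 0).erase x).erase (-x)).card + 2 := by
        have e1 := Finset.pred_card_le_card_erase (s := A.erase 0) (a := x)
        have e2 := Finset.pred_card_le_card_erase (s := (A.erase 0).erase x) (a := -x)
        omega
      obtain ⟨T, hTA, hTk, hT0, hT1⟩ := ih ((A.erase x).erase (-x)) (by omega)
      have hTx : ∀ z ∈ T, z ≠ x ∧ z ≠ -x ∧ z ∈ A := by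
        intro z hz
        have := hTA hz
        simp only [Finset.mem_erase] at this
        tauto
      refine ⟨insert x T, ?_, ?_, ?_, ?_⟩
      · intro z hz
        rcases Finset.mem_insert.1 hz with rfl | hz
        · exact hxA
        · exact (hTx z hz).2.2
      · rw [Finset.card_insert_of_notMem (fun h => (hTx x h).1 rfl), hTk]
      · intro z hz
        rcases Finset.mem_insert.1 hz with rfl | hz
        · exact hx0
        · exact hT0 z hz
      · intro z hz z' hz' hne hsum
        rcases Finset.mem_insert.1 hz with hzx | hzT <;>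
          rcases Finset.mem_insert.1 hz' with hzx' | hzT'
        · exact hne (hzx.trans hzx'.symm)
        · rw [hzx] at hsum
          exact (hTx z' hzT').2.1 (eq_neg_of_add_eq_zero_right hsum)
        · rw [hzx'] at hsum
          exact (hTx z hzT).2.1 (eq_neg_of_add_eq_zero_left hsum)
        · exact hT1 z hzT z' hzT' hne hsum
  intro A hA
  refine main A ?_
  have := Finset.pred_card_le_card_erase (s := A) (a := 0)
  omega

end Pool.Agent.Helper81.Dissoc
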