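import Pool.Agent.Helper81.Dissoc.Cyclic

set_option autoImplicit false

namespace Pool.Agent.Helper81.Dissoc

theorem odd_two_pow_add_one {s : ℕ} (hs : s ≠ 0) : Odd (2 ^ s + 1) := by
  rw [Nat.odd_add_one, Nat.not_odd_iff_even]
  exact (Nat.even_pow.mpr ⟨even_two, hs⟩)

theorem coprime_two_pow {s : ℕ} (hs : s ≠ 0) (j : ℕ) : Nat.Coprime (2 ^ j) (2 ^ s + 1) :=
  Nat.Coprime.pow_left _ (Nat.coprime_two_left.mpr (odd_two_pow_add_one hs))

/-- One of `3` and `5` is coprime to `2^s + 1`. -/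
theorem exists_small_coprime (s : ℕ) : ∃ u : ℕ, (u = 3 ∨ u = 5) ∧ Nat.Coprime u (2 ^ s + 1) := by
  by_cases h3 : 3 ∣ 2 ^ s + 1
  · refine ⟨5, Or.inr rfl, ?_⟩
    rw [Nat.Prime.coprime_iff_not_dvd (by norm_num)]
    intro h5
    have hmod : ∀ k : ℕ, 2 ^ (s % 4 + 4 * k) % 15 = 2 ^ (s % 4) % 15 := by
      intro k
      rw [pow_add, pow_mul, Nat.mul_mod, Nat.pow_mod (2 ^ 4)]
      norm_num
    have hs : s = s % 4 + 4 * (s / 4) := by omega
    have h15 : 2 ^ s % 15 = 2 ^ (s % 4) % 15 := by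
      conv_lhs => rw [hs]
      exact hmod _
    have h4 : s % 4 < 4 := Nat.mod_lt _ (by norm_num)
    interval_cases h : s % 4 <;> norm_num at h15 <;> omega
  · refine ⟨3, Or.inl rfl, ?_⟩
    rwa [Nat.Prime.coprime_iff_not_dvd (by norm_num)]

theorem totient_gt {s : ℕ} (hs : 4 ≤ s) : 2 * s < Nat.totient (2 ^ s + 1) := by
  classical
  obtain ⟨u, hu, hcop⟩ := exists_small_coprime s
  have h16 : 16 ≤ 2 ^ s := by
    calc 16 = 2 ^ 4 := by norm_num
      _ ≤ 2 ^ s := Nat.pow_le_pow_right (by norm_num) hs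
  have hhalf : ∀ j < s, 2 * 2 ^ j ≤ 2 ^ s := by
    intro j hj
    calc 2 * 2 ^ j = 2 ^ (j + 1) := by ring
      _ ≤ 2 ^ s := Nat.pow_le_pow_right (by norm_num) hj
  rw [Nat.totient_eq_card_coprime]
  let S₁ := (Finset.range s).image fun j => 2 ^ j
  let S₂ := (Finset.range s).image fun j => 2 ^ s + 1 - 2 ^ j
  have hS₁ : S₁.card = s := by
    rw [Finset.card_image_of_injective _ (Nat.pow_right_injective le_rfl), Finset.card_range]
  have hS₂ : S₂.card = s := by
    rw [Finset.card_image_of_injOn, Finset.card_range]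
    intro i hi j hj hij
    simp only [Finset.coe_range, Set.mem_Iio] at hi hj
    have h1 := hhalf i hi
    have h2 := hhalf j hj
    have hij' : 2 ^ s + 1 - 2 ^ i = 2 ^ s + 1 - 2 ^ j := hij
    have : 2 ^ i = 2 ^ j := by omega
    exact Nat.pow_right_injective le_rfl this
  have hdisj : Disjoint S₁ S₂ := by
    rw [Finset.disjoint_left]
    intro x hx1 hx2
    obtain ⟨i, hi, rfl⟩ := Finset.mem_image.mp hx1
    obtain ⟨j, hj, hj'⟩ := Finset.mem_image.mp hx2
    have h1 := hhalf i (Finset.mem_range.mp hi)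
    have h2 := hhalf j (Finset.mem_range.mp hj)
    omega
  have hu1 : u ∉ S₁ := by
    intro h
    obtain ⟨j, hj, hj'⟩ := Finset.mem_image.mp h
    rcases j with _ | j
    · rcases hu with rfl | rfl <;> simp at hj'
    · have : Even (2 ^ (j + 1)) := Nat.even_pow.mpr ⟨even_two, by omega⟩
      rw [hj'] at this
      rcases hu with rfl | rfl <;> revert this <;> decide
  have hu2 : u ∉ S₂ := by
    intro h
    obtain ⟨j, hj, hj'⟩ := Finset.mem_image.mp h
    have h2 := hhalf j (Finset.mem_range.mp hj)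
    rcases hu with rfl | rfl <;> omega
  have hcard : (insert u (S₁ ∪ S₂)).card = 2 * s + 1 := by
    rw [Finset.card_insert_of_notMem (by
      rw [Finset.mem_union]
      exact fun h => h.elim hu1 hu2), Finset.card_union_of_disjoint hdisj, hS₁, hS₂]
    ring
  have hsub : insert u (S₁ ∪ S₂) ⊆ (Finset.range (2 ^ s + 1)).filter (2 ^ s + 1).Coprime := by
    intro x hx
    rw [Finset.mem_filter, Finset.mem_range]
    rcases Finset.mem_insert.mp hx with rfl | hx
    · refine ⟨?_, hcop.symm⟩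
      rcases hu with rfl | rfl <;> omega
    · rcases Finset.mem_union.mp hx with hx | hx
      · obtain ⟨j, hj, rfl⟩ := Finset.mem_image.mp hx
        have h2 := hhalf j (Finset.mem_range.mp hj)
        exact ⟨by omega, (coprime_two_pow (by omega) j).symm⟩
      · obtain ⟨j, hj, rfl⟩ := Finset.mem_image.mp hx
        have h2 := hhalf j (Finset.mem_range.mp hj)
        have h3 : 0 < 2 ^ j := by positivity
        refine ⟨by omega, ?_⟩
        have := (coprime_two_pow (s := s) (by omega) j).symm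
        exact (Nat.coprime_self_sub_right (by omega)).mpr this
  have := Finset.card_le_card hsub
  rw [hcard] at this
  exact Nat.lt_of_succ_le this

theorem log_two_pow_add_one {s : ℕ} (hs : s ≠ 0) : Nat.log 2 (2 ^ s + 1) = s := by
  rw [Nat.log_eq_iff (Or.inl hs)]
  have : 2 ≤ 2 ^ s := by
    calc 2 = 2 ^ 1 := by norm_num
      _ ≤ 2 ^ s := Nat.pow_le_pow_right (by norm_num) (Nat.one_le_iff_ne_zero.mpr hs)
  constructor
  · omega
  · rw [pow_succ]; omega

theorem log_two_pow_sub_one {s : ℕ} (hs : 2 ≤ s) : Nat.log 2 (2 ^ s - 1) = s - 1 := by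
  rw [Nat.log_eq_iff (Or.inl (by omega))]
  have h1 : 2 ^ (s - 1 + 1) = 2 ^ s := by congr 1; omega
  have h2 : 2 ^ (s - 1 + 1) = 2 * 2 ^ (s - 1) := by ring
  have h3 : 0 < 2 ^ (s - 1) := by positivity
  omega

theorem dimGm_two_pow_add_one {s : ℕ} (hs : 4 ≤ s) :
    dimGm (ZMod (2 ^ s + 1)) (2 ^ s - 1) = s := by
  have h16 : 16 ≤ 2 ^ s := by
    calc 16 = 2 ^ 4 := by norm_num
      _ ≤ 2 ^ s := Nat.pow_le_pow_right (by norm_num) hs
  have hlog := log_two_pow_add_one (s := s) (by omega)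
  have h := dimGm_zmod (n := 2 ^ s + 1) (m := 2 ^ s - 1) (by omega) (by
    rw [hlog]
    have h1 : ∑ j ∈ Finset.range s, Nat.gcd (2 ^ j) (2 ^ s + 1) = s := by
      rw [Finset.sum_congr rfl fun j _ => (coprime_two_pow (s := s) (by omega) j)]
      simp
    have h2 : 2 ^ s + 1 - (2 ^ s - 1) = 2 := by omega
    rw [h1, h2]
    exact totient_gt hs)
  rwa [hlog] at h

end Pool.Agent.Helper81.Dissoc
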